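import Mathlib

set_option autoImplicit false
open Filter Topology Metric

namespace Run7.h91.Riv

noncomputable section

lemma signs {X : Type*} [NormedAddCommGroup X] [InnerProductSpace ℝ X] (v : ℕ → X) (c : ℝ)
    (hc : 0 ≤ c) (hv : ∀ l, c ≤ ‖v l‖) (N : ℕ) :
    ∃ ε : ℕ → ℝ, (∀ l, |ε l| ≤ 1) ∧
      (N : ℝ) * c ^ 2 ≤ ‖∑ l ∈ Finset.range N, ε l • v l‖ ^ 2 := by
  induction N with
  | zero => exact ⟨fun _ => 1, fun _ => by simp, by simp⟩
  | succ n ih =>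
    obtain ⟨ε, hε, hN⟩ := ih
    set s := ∑ l ∈ Finset.range n, ε l • v l with hs
    have key : ∃ e : ℝ, |e| ≤ 1 ∧ ‖s‖ ^ 2 + ‖v n‖ ^ 2 ≤ ‖s + e • v n‖ ^ 2 := by
      rcases le_total 0 (inner ℝ s (v n)) with h | h
      · refine ⟨1, by simp, ?_⟩
        rw [one_smul, norm_add_sq_real]
        linarith
      · refine ⟨-1, by simp, ?_⟩
        rw [norm_add_sq_real, inner_smul_right, norm_smul]
        simp only [norm_neg, norm_one, one_mul]
        linarith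
    obtain ⟨e, he, h2⟩ := key
    refine ⟨fun l => if l = n then e else ε l, ?_, ?_⟩
    · intro l
      by_cases hl : l = n
      · simp only [hl, if_true]; exact he
      · simp only [hl, if_false]; exact hε l
    · rw [Finset.sum_range_succ]
      have h3 : ∑ l ∈ Finset.range n, (if l = n then e else ε l) • v l = s := by
        rw [hs]
        apply Finset.sum_congr rfl
        intro l hl
        rw [if_neg (Finset.mem_range.1 hl).ne]
      rw [h3]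
      simp only [if_true]
      have h4 : c ^ 2 ≤ ‖v n‖ ^ 2 := pow_le_pow_left₀ hc (hv n) 2
      push_cast
      linarith

lemma bs {X : Type*} [NormedAddCommGroup X] [InnerProductSpace ℝ X] [CompleteSpace X]
    (Λ : ℕ → X →L[ℝ] ℝ) (c : ℝ) (hc : 0 < c) (hΛ : ∀ l, c ≤ ‖Λ l‖) :
    ∃ w : X, ∀ C : ℝ, ∃ (ε : ℕ → ℝ) (N : ℕ), (∀ l, |ε l| ≤ 1) ∧
      C < |∑ l ∈ Finset.range N, ε l * Λ l w| := by
  by_contra hcon
  push Not at hcon
  let ι := {ε : ℕ → ℝ // ∀ l, |ε l| ≤ 1} × ℕ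
  let g : ι → X →L[ℝ] ℝ := fun i => ∑ l ∈ Finset.range i.2, i.1.1 l • Λ l
  have hg : ∀ w, ∃ C, ∀ i, ‖g i w‖ ≤ C := by
    intro w
    obtain ⟨C, hC⟩ := hcon w
    refine ⟨C, fun i => ?_⟩
    have := hC i.1.1 i.2 i.1.2
    simp only [g, sum_apply, smul_apply, smul_eq_mul, Real.norm_eq_abs]
    exact this
  obtain ⟨C', hC'⟩ := banach_steinhaus hg
  let v : ℕ → X := fun l => (InnerProductSpace.toDual ℝ X).symm (Λ l)
  have hv : ∀ l, c ≤ ‖v l‖ := by
    intro l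
    simp only [v, LinearIsometryEquiv.norm_map]
    exact hΛ l
  obtain ⟨N, hN⟩ := exists_nat_gt (C' ^ 2 / c ^ 2)
  obtain ⟨ε, hε, h2⟩ := signs v c hc.le hv N
  have h3 : ‖∑ l ∈ Finset.range N, ε l • v l‖ = ‖g ⟨⟨ε, hε⟩, N⟩‖ := by
    have : ∑ l ∈ Finset.range N, ε l • v l
        = (InnerProductSpace.toDual ℝ X).symm (g ⟨⟨ε, hε⟩, N⟩) := by
      simp only [g, v, map_sum]
      apply Finset.sum_congr rfl
      intro l _
      simp
    rw [this, LinearIsometryEquiv.norm_map]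
  rw [h3] at h2
  have h4 : ‖g ⟨⟨ε, hε⟩, N⟩‖ ^ 2 ≤ C' ^ 2 := pow_le_pow_left₀ (norm_nonneg _) (hC' _) 2
  rw [div_lt_iff₀ (by positivity)] at hN
  linarith

end

end Run7.h91.Riv
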