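import Mathlib

set_option autoImplicit false
open MeasureTheory Set Filter Topology Metric
open scoped Real ENNReal

namespace Run7.h91.Riv

noncomputable section

/-- Lebesgue measure on the angular interval. -/
abbrev muI : Measure ℝ := volume.restrict (Ioo (-π) π)

lemma arg_symm {p : ℝ × ℝ} (hp : p ∈ Ioi (0:ℝ) ×ˢ Ioo (-π) π) :
    Complex.arg (Complex.polarCoord.symm p) = p.2 := by
  rw [Complex.polarCoord_symm_apply]
  obtain ⟨h1, h2⟩ := hp
  have := Complex.arg_mul_cos_add_sin_mul_I (r := p.1) (θ := p.2) h1 ⟨h2.1, h2.2.le⟩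
  simpa using this

lemma norm_symm {p : ℝ × ℝ} (hp : p ∈ Ioi (0:ℝ) ×ˢ Ioo (-π) π) :
    ‖Complex.polarCoord.symm p‖ = p.1 := by
  rw [Complex.norm_polarCoord_symm, abs_of_pos hp.1]

lemma lint_polar (A B : ℝ → ℝ≥0∞) (hA : Measurable A) (hB : Measurable B) :
    ∫⁻ z : ℂ, A (Complex.arg z) * B ‖z‖
      = (∫⁻ θ, A θ ∂muI) * ∫⁻ r in Ioi (0:ℝ), ENNReal.ofReal r * B r := by
  rw [← Complex.lintegral_comp_polarCoord_symm]
  have h1 : ∫⁻ p in polarCoord.target, ENNReal.ofReal p.1 •
      (A (Complex.arg (Complex.polarCoord.symm p)) * B ‖Complex.polarCoord.symm p‖)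
      = ∫⁻ p in Ioi (0:ℝ) ×ˢ Ioo (-π) π, (ENNReal.ofReal p.1 * B p.1) * A p.2 := by
    apply setLIntegral_congr_fun (measurableSet_Ioi.prod measurableSet_Ioo)
    intro p hp
    have e1 := arg_symm hp
    have e2 := norm_symm hp
    simp only [e1, e2, smul_eq_mul]
    ring
  rw [h1, Measure.volume_eq_prod, ← Measure.prod_restrict,
    lintegral_prod_mul (f := fun r => ENNReal.ofReal r * B r) (g := A), mul_comm]
  · exact ((ENNReal.measurable_ofReal).mul hB).aemeasurable
  · exact hA.aemeasurable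

lemma int_polar (A B : ℝ → ℝ) :
    ∫ z : ℂ, A (Complex.arg z) * B ‖z‖
      = (∫ θ, A θ ∂muI) * ∫ r in Ioi (0:ℝ), r * B r := by
  rw [← Complex.integral_comp_polarCoord_symm]
  have h1 : ∫ p in polarCoord.target, p.1 •
      (A (Complex.arg (Complex.polarCoord.symm p)) * B ‖Complex.polarCoord.symm p‖)
      = ∫ p in Ioi (0:ℝ) ×ˢ Ioo (-π) π, (p.1 * B p.1) * A p.2 := by
    apply setIntegral_congr_fun (measurableSet_Ioi.prod measurableSet_Ioo)
    intro p hp
    have e1 := arg_symm hp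
    have e2 := norm_symm hp
    simp only [e1, e2, smul_eq_mul]
    ring
  rw [h1, Measure.volume_eq_prod, ← Measure.prod_restrict,
    integral_prod_mul (fun r => r * B r) A, mul_comm]

lemma integrable_polar (A B : ℝ → ℝ) (hA : Measurable A) (hB : Measurable B)
    (hAi : Integrable A muI) (hBi : IntegrableOn (fun r => r * B r) (Ioi 0)) :
    Integrable (fun z : ℂ => A (Complex.arg z) * B ‖z‖) := by
  refine ⟨?_, ?_⟩
  · exact ((hA.comp Complex.measurable_arg).mul (hB.comp measurable_norm)).aestronglyMeasurable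
  · rw [hasFiniteIntegral_iff_enorm]
    have h1 : ∀ z : ℂ, ‖A (Complex.arg z) * B ‖z‖‖ₑ
        = (fun θ => ‖A θ‖ₑ) (Complex.arg z) * (fun r => ‖B r‖ₑ) ‖z‖ := by
      intro z; simp only [enorm_mul]
    rw [lintegral_congr h1, lint_polar _ _ hA.enorm hB.enorm]
    refine ENNReal.mul_lt_top ?_ ?_
    · exact (hasFiniteIntegral_iff_enorm.1 hAi.2)
    · have h2 := hasFiniteIntegral_iff_enorm.1 hBi.2
      refine lt_of_le_of_lt (le_of_eq ?_) h2
      apply setLIntegral_congr_fun measurableSet_Ioi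
      intro r hr
      simp only [enorm_mul]
      congr 1
      rw [Real.enorm_eq_ofReal_abs, abs_of_pos hr]

lemma ae_polar {p : ℝ → Prop} (hp : ∀ᵐ θ ∂muI, p θ) : ∀ᵐ z : ℂ, p (Complex.arg z) := by
  rw [ae_iff] at hp
  obtain ⟨N, hN1, hN2, hN3⟩ := exists_measurable_superset_of_null hp
  have h0 : ∫⁻ z : ℂ, N.indicator (fun _ => (1:ℝ≥0∞)) (Complex.arg z) * (fun _ => (1:ℝ≥0∞)) ‖z‖ = 0 := by
    rw [lint_polar _ _ (measurable_const.indicator hN2) measurable_const]
    rw [lintegral_indicator hN2]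
    simp [hN3]
  rw [lintegral_eq_zero_iff] at h0
  · filter_upwards [h0] with z hz
    by_contra hcon
    have : Complex.arg z ∈ N := hN1 hcon
    simp [this] at hz
  · exact ((measurable_const.indicator hN2).comp Complex.measurable_arg).mul measurable_const

end

end Run7.h91.Riv
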