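import Mathlib
import Pool.Agent.Run7.h91.RivPolar

set_option autoImplicit false
open MeasureTheory Set Filter Topology Metric
open scoped Real ENNReal NNReal

namespace Run7.h91.Riv

noncomputable section

/-- The planar kernel, homogeneous of degree `-2`, with angular part `Om`. -/
def K (Om : ℝ → ℝ) (z : ℂ) : ℝ := Om (Complex.arg z) * (‖z‖ ^ 2)⁻¹

lemma K_meas {Om : ℝ → ℝ} (h : Measurable Om) : Measurable (K Om) :=
  (h.comp Complex.measurable_arg).mul ((measurable_norm.pow_const 2).inv)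

lemma K_smul (Om : ℝ → ℝ) {t : ℝ} (ht : 0 < t) (z : ℂ) :
    K Om (t • z) = t ^ (-(2 : ℤ)) * K Om z := by
  unfold K
  rw [Complex.real_smul, Complex.arg_real_mul z ht, norm_mul, Complex.norm_real,
    Real.norm_of_nonneg ht.le, zpow_neg, mul_pow, mul_inv]
  norm_cast
  ring

lemma K_ind (Om : ℝ → ℝ) (S : Set ℝ) (z : ℂ) :
    indicator {z : ℂ | ‖z‖ ∈ S} (K Om) z
      = Om (Complex.arg z) * indicator S (fun r => (r ^ 2)⁻¹) ‖z‖ := by
  by_cases h : ‖z‖ ∈ S
  · have : z ∈ {z : ℂ | ‖z‖ ∈ S} := h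
    rw [indicator_of_mem this, indicator_of_mem h]; rfl
  · have : z ∉ {z : ℂ | ‖z‖ ∈ S} := h
    rw [indicator_of_notMem this, indicator_of_notMem h, mul_zero]

lemma meas_normset {S : Set ℝ} (hS : MeasurableSet S) : MeasurableSet {z : ℂ | ‖z‖ ∈ S} :=
  measurable_norm hS

lemma int_K_zero {Om : ℝ → ℝ} (h0 : ∫ θ, Om θ ∂muI = 0) {S : Set ℝ} (hS : MeasurableSet S) :
    ∫ z in {z : ℂ | ‖z‖ ∈ S}, K Om z = 0 := by
  rw [← integral_indicator (meas_normset hS)]
  have h1 : ∀ z : ℂ, indicator {z : ℂ | ‖z‖ ∈ S} (K Om) z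
      = Om (Complex.arg z) * indicator S (fun r => (r ^ 2)⁻¹) ‖z‖ := K_ind Om S
  simp_rw [h1]
  rw [int_polar, h0, zero_mul]

lemma weight_int {a b : ℝ} (ha : 0 < a) (p : ℕ) :
    IntegrableOn (fun r => r * indicator (Icc a b) (fun r => ((r ^ 2)⁻¹) ^ p) r) (Ioi 0) := by
  have h1 : (fun r => r * indicator (Icc a b) (fun r => ((r ^ 2)⁻¹) ^ p) r)
      = indicator (Icc a b) (fun r => r * ((r ^ 2)⁻¹) ^ p) := by
    funext r
    by_cases h : r ∈ Icc a b
    · rw [indicator_of_mem h, indicator_of_mem h]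
    · rw [indicator_of_notMem h, indicator_of_notMem h, mul_zero]
  rw [h1]
  apply Integrable.integrableOn
  rw [integrable_indicator_iff measurableSet_Icc]
  apply ContinuousOn.integrableOn_Icc
  apply ContinuousOn.mul continuousOn_id
  apply ContinuousOn.pow
  apply ContinuousOn.inv₀ (by fun_prop)
  intro x hx
  have : 0 < x := lt_of_lt_of_le ha hx.1
  positivity

lemma K_annulus {Om : ℝ → ℝ} (h : Measurable Om) (hi : Integrable Om muI) {a b : ℝ} (ha : 0 < a) :
    IntegrableOn (K Om) {z : ℂ | ‖z‖ ∈ Icc a b} := by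
  rw [← integrable_indicator_iff (meas_normset measurableSet_Icc)]
  have h1 : indicator {z : ℂ | ‖z‖ ∈ Icc a b} (K Om)
      = fun z : ℂ => Om (Complex.arg z) * indicator (Icc a b) (fun r => (r ^ 2)⁻¹) ‖z‖ :=
    funext (K_ind Om _)
  rw [h1]
  apply integrable_polar _ _ h _ hi
  · have := weight_int (b := b) ha 1
    simpa using this
  · exact ((measurable_id.pow_const 2).inv).indicator measurableSet_Icc

lemma K_sq_annulus {Om : ℝ → ℝ} (h : Measurable Om) (hi : Integrable (fun θ => Om θ ^ 2) muI)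
    {a b : ℝ} (ha : 0 < a) :
    IntegrableOn (fun z => K Om z ^ 2) {z : ℂ | ‖z‖ ∈ Icc a b} := by
  rw [← integrable_indicator_iff (meas_normset measurableSet_Icc)]
  have h1 : indicator {z : ℂ | ‖z‖ ∈ Icc a b} (fun z => K Om z ^ 2)
      = fun z : ℂ => (fun θ => Om θ ^ 2) (Complex.arg z) *
        indicator (Icc a b) (fun r => ((r ^ 2)⁻¹) ^ 2) ‖z‖ := by
    funext z
    by_cases h : ‖z‖ ∈ Icc a b
    · have h' : z ∈ {z : ℂ | ‖z‖ ∈ Icc a b} := h
      rw [indicator_of_mem h', indicator_of_mem h]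
      unfold K
      rw [mul_pow]
    · have h' : z ∉ {z : ℂ | ‖z‖ ∈ Icc a b} := h
      rw [indicator_of_notMem h', indicator_of_notMem h, mul_zero]
  rw [h1]
  apply integrable_polar _ _ (h.pow_const 2) _ hi
  · exact weight_int (b := b) ha 2
  · exact (((measurable_id.pow_const 2).inv).pow_const 2).indicator measurableSet_Icc

lemma LlogL_annulus {Om : ℝ → ℝ} (h : Measurable Om) (hi : Integrable (fun θ => Om θ ^ 2) muI)
    {a b : ℝ} (ha : 0 < a) :
    IntegrableOn (fun z => |K Om z| * max 0 (Real.log |K Om z|)) {z : ℂ | ‖z‖ ∈ Icc a b} := by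
  refine Integrable.mono' (K_sq_annulus h hi (b := b) ha) ?_ (ae_of_all _ ?_)
  · have hm := K_meas h
    have : Measurable (fun z => |K Om z| * max 0 (Real.log |K Om z|)) := by
      have h1 : Measurable (fun z => |K Om z|) := hm.abs
      exact h1.mul (measurable_const.max (Real.measurable_log.comp h1))
    exact this.aestronglyMeasurable
  · intro z
    have h0 : 0 ≤ max 0 (Real.log |K Om z|) := le_max_left _ _
    rw [norm_mul, Real.norm_of_nonneg h0, norm_abs_eq_norm, Real.norm_eq_abs, ← sq_abs, sq]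
    apply mul_le_mul_of_nonneg_left _ (abs_nonneg _)
    apply max_le (abs_nonneg _)
    exact Real.log_le_self (abs_nonneg _)

/-- near the origin the kernel times `‖y‖` is integrable -/
lemma K_mul_norm {Om : ℝ → ℝ} (h : Measurable Om) (hi : Integrable Om muI) :
    IntegrableOn (fun z => |K Om z| * ‖z‖) {z : ℂ | ‖z‖ ∈ Ioc 0 1} := by
  rw [← integrable_indicator_iff (meas_normset measurableSet_Ioc)]
  have h1 : indicator {z : ℂ | ‖z‖ ∈ Ioc 0 1} (fun z => |K Om z| * ‖z‖)
      = fun z : ℂ => (fun θ => |Om θ|) (Complex.arg z) *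
        indicator (Ioc 0 1) (fun r => (r ^ 2)⁻¹ * r) ‖z‖ := by
    funext z
    by_cases h : ‖z‖ ∈ Ioc 0 1
    · have h' : z ∈ {z : ℂ | ‖z‖ ∈ Ioc 0 1} := h
      rw [indicator_of_mem h', indicator_of_mem h]
      unfold K
      rw [abs_mul, abs_of_nonneg (a := (‖z‖ ^ 2)⁻¹) (by positivity), mul_assoc]
    · have h' : z ∉ {z : ℂ | ‖z‖ ∈ Ioc 0 1} := h
      rw [indicator_of_notMem h', indicator_of_notMem h, mul_zero]
  rw [h1]
  apply integrable_polar _ _ h.abs _ hi.abs
  · have h2 : (fun r => r * indicator (Ioc (0:ℝ) 1) (fun r => (r ^ 2)⁻¹ * r) r)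
      = indicator (Ioc (0:ℝ) 1) (fun r => 1) := by
      funext r
      by_cases h : r ∈ Ioc (0:ℝ) 1
      · rw [indicator_of_mem h, indicator_of_mem h]
        have := h.1
        field_simp
      · rw [indicator_of_notMem h, indicator_of_notMem h, mul_zero]
    rw [h2]
    apply Integrable.integrableOn
    rw [integrable_indicator_iff measurableSet_Ioc]
    exact integrableOn_const (by simp)
  · exact (((measurable_id.pow_const 2).inv).mul measurable_id).indicator measurableSet_Ioc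

end

end Run7.h91.Riv
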