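import Mathlib
import Pool.Agent.Run7.h91.RivKernel

set_option autoImplicit false
open MeasureTheory Set Filter Topology Metric
open scoped Real ENNReal NNReal

namespace Run7.h91.Riv

noncomputable section

/-- Test functions: `C^1`, compactly supported, vanishing on the ball of radius 4. -/
structure TF (f : ℂ → ℝ) : Prop where
  smooth : ContDiff ℝ 1 f
  bdd : ∃ b : ℝ, 4 ≤ b ∧ ∀ x, b < ‖x‖ → f x = 0
  van : ∀ x, ‖x‖ ≤ 4 → f x = 0

lemma TF.zero : TF (fun _ => 0) :=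
  ⟨contDiff_const, ⟨4, le_rfl, fun _ _ => rfl⟩, fun _ _ => rfl⟩

lemma TF.add {f g : ℂ → ℝ} (hf : TF f) (hg : TF g) : TF (fun x => f x + g x) := by
  obtain ⟨b, hb4, hb⟩ := hf.bdd
  obtain ⟨c, hc4, hc⟩ := hg.bdd
  refine ⟨hf.smooth.add hg.smooth, ⟨max b c, le_max_of_le_left hb4, ?_⟩, ?_⟩
  · intro x hx
    rw [hb x (lt_of_le_of_lt (le_max_left _ _) hx), hc x (lt_of_le_of_lt (le_max_right _ _) hx),
      add_zero]
  · intro x hx
    rw [hf.van x hx, hg.van x hx, add_zero]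

lemma TF.smul {f : ℂ → ℝ} (hf : TF f) (c : ℝ) : TF (fun x => c * f x) := by
  obtain ⟨b, hb4, hb⟩ := hf.bdd
  refine ⟨contDiff_const.mul hf.smooth, ⟨b, hb4, ?_⟩, ?_⟩
  · intro x hx
    rw [hb x hx, mul_zero]
  · intro x hx
    rw [hf.van x hx, mul_zero]

lemma TF.sum {f : ℕ → ℂ → ℝ} (hf : ∀ l, TF (f l)) (ε : ℕ → ℝ) (N : ℕ) :
    TF (fun x => ∑ l ∈ Finset.range N, ε l * f l x) := by
  induction N with
  | zero => simpa using TF.zero
  | succ n ih =>
    simp_rw [Finset.sum_range_succ]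
    exact ih.add ((hf n).smul _)

lemma TF.cpt {f : ℂ → ℝ} (hf : TF f) : HasCompactSupport f := by
  obtain ⟨b, -, hb⟩ := hf.bdd
  apply HasCompactSupport.of_support_subset_isCompact (isCompact_closedBall (0:ℂ) b)
  intro x hx
  rw [mem_closedBall_zero_iff]
  by_contra hcon
  exact hx (hb x (not_le.1 hcon))

lemma TF.cont {f : ℂ → ℝ} (hf : TF f) : Continuous f := hf.smooth.continuous

lemma TF.bound {f : ℂ → ℝ} (hf : TF f) : ∃ M, 0 ≤ M ∧ ∀ x, |f x| ≤ M := by
  obtain ⟨M, hM⟩ := hf.cont.bounded_above_of_compact_support hf.cpt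
  exact ⟨M, (norm_nonneg _).trans (hM 0), hM⟩

lemma TF.lip {f : ℂ → ℝ} (hf : TF f) : ∃ L : ℝ≥0, LipschitzWith L f :=
  hf.smooth.lipschitzWith_of_hasCompactSupport hf.cpt one_ne_zero

/-- The convolution. -/
def T (Om : ℝ → ℝ) (f : ℂ → ℝ) (x : ℂ) : ℝ := ∫ y, K Om y * f (x - y)

lemma far_integrable {Om : ℝ → ℝ} (h : Measurable Om) (hi : Integrable Om muI) {f : ℂ → ℝ}
    (hf : TF f) (x : ℂ) {ε : ℝ} (hε : 0 < ε) :
    IntegrableOn (fun y => K Om y * f (x - y)) {y : ℂ | ε < ‖y‖} := by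
  obtain ⟨b, hb4, hb⟩ := hf.bdd
  obtain ⟨M, hM0, hM⟩ := hf.bound
  have h1 : IntegrableOn (fun y => K Om y * f (x - y)) {y : ℂ | ‖y‖ ∈ Icc ε (b + ‖x‖)} := by
    refine Integrable.mono' ((K_annulus h hi (b := b + ‖x‖) hε).norm.mul_const M) ?_ ?_
    · exact ((K_meas h).mul (hf.cont.measurable.comp (measurable_const.sub measurable_id))).aestronglyMeasurable
    · refine ae_of_all _ fun y => ?_
      rw [norm_mul]
      exact mul_le_mul_of_nonneg_left (hM _) (norm_nonneg _)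
  have h2 : IntegrableOn (fun y => K Om y * f (x - y)) {y : ℂ | ‖y‖ ∈ Ioi (b + ‖x‖)} := by
    apply IntegrableOn.congr_fun (f := fun _ => 0) integrableOn_zero _ (meas_normset measurableSet_Ioi)
    intro y hy
    have hy' : b + ‖x‖ < ‖y‖ := hy
    have : b < ‖x - y‖ := by
      have := norm_sub_norm_le y x
      rw [norm_sub_rev] at this
      linarith
    simp only []
    rw [hb _ this, mul_zero]
  apply (h1.union h2).mono_set
  intro y hy
  have hy' : ε < ‖y‖ := hy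
  rcases le_or_gt ‖y‖ (b + ‖x‖) with h3 | h3
  · exact Or.inl ⟨hy'.le, h3⟩
  · exact Or.inr h3

lemma near_zero {f : ℂ → ℝ} (hf : TF f) {x y : ℂ} (hx : ‖x‖ < 1) (hy : ‖y‖ ≤ 3) :
    f (x - y) = 0 := by
  apply hf.van
  have := norm_sub_le x y
  linarith

lemma T_integrable {Om : ℝ → ℝ} (h : Measurable Om) (hi : Integrable Om muI) {f : ℂ → ℝ}
    (hf : TF f) {x : ℂ} (hx : ‖x‖ < 1) :
    Integrable (fun y => K Om y * f (x - y)) := by
  have h1 := far_integrable h hi hf x (ε := 1) one_pos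
  have h2 : IntegrableOn (fun y => K Om y * f (x - y)) {y : ℂ | ‖y‖ ∈ Iic 3} := by
    apply IntegrableOn.congr_fun (f := fun _ => 0) integrableOn_zero _ (meas_normset measurableSet_Iic)
    intro y hy
    have hy' : ‖y‖ ≤ 3 := hy
    simp only []
    rw [near_zero hf hx hy', mul_zero]
  have h3 := h1.union h2
  rw [← integrableOn_univ]
  apply h3.mono_set
  intro y _
  rcases le_or_gt ‖y‖ 3 with h4 | h4
  · exact Or.inr h4
  · left
    show (1:ℝ) < ‖y‖
    linarith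

lemma T_trunc {Om : ℝ → ℝ} {f : ℂ → ℝ}
    (hf : TF f) {x : ℂ} (hx : ‖x‖ < 1) {ε : ℝ} (hε : ε < 3) :
    ∫ y in {y : ℂ | ε < ‖y‖}, K Om y * f (x - y) = T Om f x := by
  unfold T
  rw [setIntegral_eq_integral_of_forall_compl_eq_zero]
  intro y hy
  have hy' : ‖y‖ ≤ 3 := by
    have : ¬ (ε < ‖y‖) := hy
    linarith
  rw [near_zero hf hx hy', mul_zero]

/-- principal value exists everywhere. -/
lemma pv_exists {Om : ℝ → ℝ} (h : Measurable Om) (hi : Integrable Om muI)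
    (h0 : ∫ θ, Om θ ∂muI = 0) {f : ℂ → ℝ} (hf : TF f) (x : ℂ) :
    ∃ g : ℝ, Tendsto (fun ε : ℝ => ∫ y in {y : ℂ | ε < ‖y‖}, K Om y * f (x - y)) (𝓝[>] 0)
      (𝓝 g) := by
  obtain ⟨L, hL⟩ := hf.lip
  set H : ℂ → ℝ := fun y => K Om y * (f (x - y) - f x) with hH
  have hHm : Measurable H :=
    (K_meas h).mul ((hf.cont.measurable.comp (measurable_const.sub measurable_id)).sub measurable_const)
  set S : Set ℂ := {y : ℂ | ‖y‖ ∈ Ioc 0 1} with hS
  have hSm : MeasurableSet S := meas_normset measurableSet_Ioc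
  have hHb : ∀ y, ‖H y‖ ≤ L * (|K Om y| * ‖y‖) := by
    intro y
    rw [hH]
    simp only [norm_mul]
    have h1 : ‖f (x - y) - f x‖ ≤ L * ‖y‖ := by
      have := hL.dist_le_mul (x - y) x
      rw [dist_eq_norm, dist_eq_norm] at this
      simpa using this
    calc ‖K Om y‖ * ‖f (x - y) - f x‖ ≤ ‖K Om y‖ * (L * ‖y‖) :=
          mul_le_mul_of_nonneg_left h1 (norm_nonneg _)
      _ = L * (|K Om y| * ‖y‖) := by rw [Real.norm_eq_abs]; ring
  have hHi : IntegrableOn H S := by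
    refine Integrable.mono' ((K_mul_norm h hi).const_mul (L:ℝ)) hHm.aestronglyMeasurable
      (ae_of_all _ hHb)
  refine ⟨(∫ y in S, H y) + ∫ y in {y : ℂ | 1 < ‖y‖}, K Om y * f (x - y), ?_⟩
  -- the truncated integrals of `H`
  have hlim : Tendsto (fun ε : ℝ => ∫ y in S, indicator {y : ℂ | ε < ‖y‖} H y) (𝓝[>] 0)
      (𝓝 (∫ y in S, H y)) := by
    apply tendsto_integral_filter_of_dominated_convergence (fun y => ‖H y‖)
    · refine Eventually.of_forall fun ε => ?_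
      exact (hHm.indicator (measurableSet_lt measurable_const measurable_norm)).aestronglyMeasurable
    · refine Eventually.of_forall fun ε => ae_of_all _ fun y => ?_
      exact norm_indicator_le_norm_self _ _
    · exact hHi.norm
    · rw [ae_restrict_iff' hSm]
      refine ae_of_all _ fun y hy => ?_
      have hy0 : 0 < ‖y‖ := hy.1
      apply tendsto_const_nhds.congr'
      have : ∀ᶠ ε in 𝓝[>] (0:ℝ), ε < ‖y‖ :=
        nhdsWithin_le_nhds (Iio_mem_nhds hy0)
      filter_upwards [this] with ε hε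
      rw [indicator_of_mem]
      exact hε
  have hev : ∀ᶠ ε in 𝓝[>] (0:ℝ), (∫ y in S, indicator {y : ℂ | ε < ‖y‖} H y)
      + ∫ y in {y : ℂ | 1 < ‖y‖}, K Om y * f (x - y)
      = ∫ y in {y : ℂ | ε < ‖y‖}, K Om y * f (x - y) := by
    have h1 : ∀ᶠ ε in 𝓝[>] (0:ℝ), 0 < ε := eventually_mem_nhdsWithin
    have h2 : ∀ᶠ ε in 𝓝[>] (0:ℝ), ε < 1 := nhdsWithin_le_nhds (Iio_mem_nhds one_pos)
    filter_upwards [h1, h2] with ε hε0 hε1
    have hm1 : MeasurableSet {y : ℂ | ε < ‖y‖} := measurableSet_lt measurable_const measurable_norm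
    have hm2 : MeasurableSet {y : ℂ | 1 < ‖y‖} := measurableSet_lt measurable_const measurable_norm
    have hsplit : {y : ℂ | ε < ‖y‖} = {y : ℂ | ‖y‖ ∈ Ioc ε 1} ∪ {y : ℂ | 1 < ‖y‖} := by
      ext y
      constructor
      · intro hy
        rcases le_or_gt ‖y‖ 1 with h3 | h3
        · exact Or.inl ⟨hy, h3⟩
        · exact Or.inr h3
      · rintro (hy | hy)
        · exact hy.1
        · exact lt_trans hε1 hy
    have hA : {y : ℂ | ‖y‖ ∈ Ioc ε 1} ⊆ {y : ℂ | ε < ‖y‖} := fun y hy => hy.1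
    have hB : {y : ℂ | 1 < ‖y‖} ⊆ {y : ℂ | ε < ‖y‖} := fun y hy => lt_trans hε1 hy
    have hI := far_integrable h hi hf x hε0
    rw [hsplit, setIntegral_union _ hm2 (hI.mono_set hA) (hI.mono_set hB)]
    · congr 1
      rw [← hsplit, setIntegral_indicator hm1]
      have hS2 : S ∩ {y : ℂ | ε < ‖y‖} = {y : ℂ | ‖y‖ ∈ Ioc ε 1} := by
        ext y
        constructor
        · rintro ⟨h3, h4⟩
          exact ⟨h4, h3.2⟩
        · rintro h3
          exact ⟨⟨lt_trans hε0 h3.1, h3.2⟩, h3.1⟩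
      rw [hS2]
      have hKi : IntegrableOn (K Om) {y : ℂ | ‖y‖ ∈ Ioc ε 1} :=
        (K_annulus h hi (b := 1) hε0).mono_set fun y hy => ⟨hy.1.le, hy.2⟩
      have hz : ∫ y in {y : ℂ | ‖y‖ ∈ Ioc ε 1}, K Om y * f x = 0 := by
        rw [integral_mul_const, int_K_zero h0 measurableSet_Ioc, zero_mul]
      have : ∀ y, H y = K Om y * f (x - y) - K Om y * f x := fun y => by
        rw [hH]; ring
      simp_rw [this]
      rw [integral_sub (hI.mono_set hA) (hKi.mul_const _), hz, sub_zero]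
    · rw [Set.disjoint_left]
      intro y hy1 hy2
      have h3 : ‖y‖ ≤ 1 := hy1.2
      have h4 : 1 < ‖y‖ := hy2
      linarith
  exact (hlim.add_const _).congr' hev

end

end Run7.h91.Riv
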