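import Mathlib
import Pool.Agent.Run7.h91.RivPV

set_option autoImplicit false
open MeasureTheory Set Filter Topology Metric
open scoped Real ENNReal NNReal

namespace Run7.h91.Riv

noncomputable section

/-- The ball at the origin. -/
def B0 : Set ℂ := ball 0 (1/100)

/-- The ball at `i/2`. -/
def Bp : Set ℂ := ball (Complex.I/2) (1/100)

lemma B0_sub : B0 ⊆ ball (0:ℂ) 1 := ball_subset_ball (by norm_num)

lemma Bp_norm {x : ℂ} (hx : x ∈ Bp) : ‖x‖ < 51/100 := by
  have h1 : ‖x - Complex.I/2‖ < 1/100 := by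
    have := mem_ball.1 hx
    rwa [dist_eq_norm] at this
  have h2 : ‖(Complex.I/2 : ℂ)‖ = 1/2 := by simp
  have h3 := norm_add_le (x - Complex.I/2) (Complex.I/2)
  rw [sub_add_cancel, h2] at h3
  linarith

lemma Bp_sub : Bp ⊆ ball (0:ℂ) 1 := by
  intro x hx
  rw [mem_ball_zero_iff]
  have := Bp_norm hx
  linarith

/-- The test functional. -/
def Lam (Om : ℝ → ℝ) (f : ℂ → ℝ) : ℝ := (∫ x in B0, T Om f x) - ∫ x in Bp, T Om f x

lemma T_bound {f : ℂ → ℝ} (hf : TF f) : ∃ C : ℝ, 0 ≤ C ∧ ∀ Om : ℝ → ℝ, Measurable Om →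
    Integrable Om muI → ∀ x : ℂ, ‖x‖ < 1 → |T Om f x| ≤ C * ∫ θ, |Om θ| ∂muI := by
  obtain ⟨b, hb4, hb⟩ := hf.bdd
  obtain ⟨M, hM0, hM⟩ := hf.bound
  have hW0 : 0 ≤ ∫ r in Ioi (0:ℝ), r * indicator (Icc 3 (b+1)) (fun r => (r ^ 2)⁻¹) r := by
    apply setIntegral_nonneg measurableSet_Ioi
    intro r hr
    apply mul_nonneg (le_of_lt hr)
    apply indicator_nonneg
    intro s _
    positivity
  refine ⟨M * ∫ r in Ioi (0:ℝ), r * indicator (Icc 3 (b+1)) (fun r => (r ^ 2)⁻¹) r,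
    mul_nonneg hM0 hW0, ?_⟩
  intro Om hOm hi x hx
  have hbd : ∀ y : ℂ, ‖K Om y * f (x - y)‖ ≤
      M * ((fun θ => |Om θ|) (Complex.arg y) *
        indicator (Icc 3 (b+1)) (fun r => (r ^ 2)⁻¹) ‖y‖) := by
    intro y
    by_cases hy : ‖y‖ ∈ Icc 3 (b+1)
    · rw [indicator_of_mem hy, norm_mul]
      unfold K
      rw [norm_mul, Real.norm_of_nonneg (r := (‖y‖ ^ 2)⁻¹) (by positivity)]
      rw [mul_comm M]
      exact mul_le_mul_of_nonneg_left (hM _) (by positivity)
    · rw [indicator_of_notMem hy]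
      have : f (x - y) = 0 := by
        rw [mem_Icc, not_and_or, not_le, not_le] at hy
        rcases hy with hy | hy
        · exact near_zero hf hx hy.le
        · apply hb
          have := norm_sub_norm_le y x
          rw [norm_sub_rev] at this
          linarith
      rw [this]
      simp
  have hint : Integrable (fun y : ℂ => M * ((fun θ => |Om θ|) (Complex.arg y) *
        indicator (Icc 3 (b+1)) (fun r => (r ^ 2)⁻¹) ‖y‖)) := by
    apply Integrable.const_mul
    apply integrable_polar _ _ hOm.abs _ hi.abs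
    · have := weight_int (a := 3) (b := b+1) (by norm_num) 1
      simpa using this
    · exact ((measurable_id.pow_const 2).inv).indicator measurableSet_Icc
  have h1 := norm_integral_le_of_norm_le hint (ae_of_all _ hbd)
  rw [integral_const_mul, int_polar (fun θ => |Om θ|)
    (indicator (Icc 3 (b+1)) (fun r => (r ^ 2)⁻¹))] at h1
  unfold T
  rw [← Real.norm_eq_abs]
  refine h1.trans (le_of_eq ?_)
  ring

lemma T_sm {Om : ℝ → ℝ} (hOm : Measurable Om) {f : ℂ → ℝ} (hf : TF f) :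
    StronglyMeasurable (T Om f) := by
  have h1 : Measurable (fun p : ℂ × ℂ => K Om p.2 * f (p.1 - p.2)) :=
    ((K_meas hOm).comp measurable_snd).mul
      (hf.cont.measurable.comp (measurable_fst.sub measurable_snd))
  exact h1.stronglyMeasurable.integral_prod_right

lemma T_intOn {Om : ℝ → ℝ} (hOm : Measurable Om) (hi : Integrable Om muI) {f : ℂ → ℝ}
    (hf : TF f) : IntegrableOn (T Om f) (ball 0 1) := by
  obtain ⟨C, hC0, hC⟩ := T_bound hf
  refine Measure.integrableOn_of_bounded (M := C * ∫ θ, |Om θ| ∂muI) measure_ball_lt_top.ne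
    (T_sm hOm hf).aestronglyMeasurable ?_
  rw [ae_restrict_iff' measurableSet_ball]
  refine ae_of_all _ fun x hx => ?_
  exact hC Om hOm hi x (mem_ball_zero_iff.1 hx)

lemma T_congr {Om Om' : ℝ → ℝ} (h : Om =ᵐ[muI] Om') (f : ℂ → ℝ) (x : ℂ) :
    T Om f x = T Om' f x := by
  unfold T
  apply integral_congr_ae
  filter_upwards [ae_polar h] with y hy
  unfold K
  rw [hy]

lemma T_add {Om Om' : ℝ → ℝ} (hOm : Measurable Om) (hi : Integrable Om muI)
    (hOm' : Measurable Om') (hi' : Integrable Om' muI) {f : ℂ → ℝ}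
    (hf : TF f) {x : ℂ} (hx : ‖x‖ < 1) :
    T (fun θ => Om θ + Om' θ) f x = T Om f x + T Om' f x := by
  unfold T
  rw [← integral_add (T_integrable hOm hi hf hx) (T_integrable hOm' hi' hf hx)]
  congr 1
  funext y
  unfold K
  ring

lemma T_smul (c : ℝ) (Om : ℝ → ℝ) (f : ℂ → ℝ) (x : ℂ) :
    T (fun θ => c * Om θ) f x = c * T Om f x := by
  unfold T
  rw [← integral_const_mul]
  congr 1
  funext y
  unfold K
  ring

lemma T_addf {Om : ℝ → ℝ} (hOm : Measurable Om) (hi : Integrable Om muI)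
    {f f' : ℂ → ℝ} (hf : TF f) (hf' : TF f') {x : ℂ} (hx : ‖x‖ < 1) :
    T Om (fun x => f x + f' x) x = T Om f x + T Om f' x := by
  unfold T
  rw [← integral_add (T_integrable hOm hi hf hx) (T_integrable hOm hi hf' hx)]
  congr 1
  funext y
  ring

lemma T_smulf (c : ℝ) (Om : ℝ → ℝ) (f : ℂ → ℝ) (x : ℂ) :
    T Om (fun x => c * f x) x = c * T Om f x := by
  unfold T
  rw [← integral_const_mul]
  congr 1
  funext y
  ring

lemma int_T_congr {F G : ℂ → ℝ} (h : ∀ x : ℂ, ‖x‖ < 1 → F x = G x) :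
    (∫ x in B0, F x) = (∫ x in B0, G x) ∧ (∫ x in Bp, F x) = ∫ x in Bp, G x := by
  constructor
  · apply setIntegral_congr_fun measurableSet_ball
    intro x hx
    exact h x (mem_ball_zero_iff.1 (B0_sub hx))
  · apply setIntegral_congr_fun measurableSet_ball
    intro x hx
    exact h x (mem_ball_zero_iff.1 (Bp_sub hx))

lemma Lam_congr {Om Om' : ℝ → ℝ} (h : Om =ᵐ[muI] Om') (f : ℂ → ℝ) :
    Lam Om f = Lam Om' f := by
  have h1 := int_T_congr (F := T Om f) (G := T Om' f) fun x _ => T_congr h f x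
  unfold Lam
  rw [h1.1, h1.2]

lemma Lam_add {Om Om' : ℝ → ℝ} (hOm : Measurable Om) (hi : Integrable Om muI)
    (hOm' : Measurable Om') (hi' : Integrable Om' muI) {f : ℂ → ℝ}
    (hf : TF f) :
    Lam (fun θ => Om θ + Om' θ) f = Lam Om f + Lam Om' f := by
  have h1 := int_T_congr (F := T (fun θ => Om θ + Om' θ) f) (G := fun x => T Om f x + T Om' f x)
    fun x hx => T_add hOm hi hOm' hi' hf hx
  unfold Lam
  rw [h1.1, h1.2, integral_add ((T_intOn hOm hi hf).mono_set B0_sub)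
    ((T_intOn hOm' hi' hf).mono_set B0_sub), integral_add ((T_intOn hOm hi hf).mono_set Bp_sub)
    ((T_intOn hOm' hi' hf).mono_set Bp_sub)]
  ring

lemma Lam_smul (c : ℝ) (Om : ℝ → ℝ) (f : ℂ → ℝ) :
    Lam (fun θ => c * Om θ) f = c * Lam Om f := by
  unfold Lam
  simp_rw [T_smul]
  rw [integral_const_mul, integral_const_mul]
  ring

lemma Lam_addf {Om : ℝ → ℝ} (hOm : Measurable Om) (hi : Integrable Om muI)
    {f f' : ℂ → ℝ} (hf : TF f) (hf' : TF f') :
    Lam Om (fun x => f x + f' x) = Lam Om f + Lam Om f' := by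
  have h1 := int_T_congr (F := T Om (fun x => f x + f' x)) (G := fun x => T Om f x + T Om f' x)
    fun x hx => T_addf hOm hi hf hf' hx
  unfold Lam
  rw [h1.1, h1.2, integral_add ((T_intOn hOm hi hf).mono_set B0_sub)
    ((T_intOn hOm hi hf').mono_set B0_sub), integral_add ((T_intOn hOm hi hf).mono_set Bp_sub)
    ((T_intOn hOm hi hf').mono_set Bp_sub)]
  ring

lemma Lam_smulf (c : ℝ) (Om : ℝ → ℝ) (f : ℂ → ℝ) :
    Lam Om (fun x => c * f x) = c * Lam Om f := by
  unfold Lam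
  simp_rw [T_smulf]
  rw [integral_const_mul, integral_const_mul]
  ring

lemma Lam_sum {Om : ℝ → ℝ} (hOm : Measurable Om) (hi : Integrable Om muI)
    {f : ℕ → ℂ → ℝ} (hf : ∀ l, TF (f l)) (ε : ℕ → ℝ) (N : ℕ) :
    Lam Om (fun x => ∑ l ∈ Finset.range N, ε l * f l x)
      = ∑ l ∈ Finset.range N, ε l * Lam Om (f l) := by
  induction N with
  | zero =>
    have := Lam_smulf 0 Om (fun _ => 0)
    simpa using this
  | succ n ih =>
    simp_rw [Finset.sum_range_succ]
    rw [Lam_addf hOm hi (TF.sum hf ε n) ((hf n).smul (ε n)), ih, Lam_smulf]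

lemma Lam_bound {f : ℂ → ℝ} (hf : TF f) : ∃ C : ℝ, 0 ≤ C ∧ ∀ Om : ℝ → ℝ, Measurable Om →
    Integrable Om muI → |Lam Om f| ≤ C * ∫ θ, |Om θ| ∂muI := by
  obtain ⟨C, hC0, hC⟩ := T_bound hf
  refine ⟨C * (volume.real B0) + C * (volume.real Bp), by positivity, ?_⟩
  intro Om hOm hi
  have h1 : ‖∫ x in B0, T Om f x‖ ≤ (C * ∫ θ, |Om θ| ∂muI) * volume.real B0 := by
    apply norm_setIntegral_le_of_norm_le_const measure_ball_lt_top
    intro x hx
    exact hC Om hOm hi x (mem_ball_zero_iff.1 (B0_sub hx))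
  have h2 : ‖∫ x in Bp, T Om f x‖ ≤ (C * ∫ θ, |Om θ| ∂muI) * volume.real Bp := by
    apply norm_setIntegral_le_of_norm_le_const measure_ball_lt_top
    intro x hx
    exact hC Om hOm hi x (mem_ball_zero_iff.1 (Bp_sub hx))
  unfold Lam
  have h3 := norm_sub_le (∫ x in B0, T Om f x) (∫ x in Bp, T Om f x)
  rw [← Real.norm_eq_abs]
  refine h3.trans ((add_le_add h1 h2).trans (le_of_eq ?_))
  ring

/-- `BMO` bound for the principal value operator on the plane. -/
def BMOBound (k : ℂ → ℝ) (C : ℝ) : Prop :=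
  ∀ (f : ℂ → ℝ) (M : ℝ), Measurable f → HasCompactSupport f → (∀ x, |f x| ≤ M) →
   ∀ g : ℂ → ℝ, (∀ᵐ x : ℂ, Tendsto (fun ε : ℝ => ∫ y in {y : ℂ | ε < ‖y‖}, k y * f (x - y))
      (𝓝[>] 0) (𝓝 (g x))) →
   ∀ (c : ℂ) (r : ℝ), 0 < r → IntegrableOn g (ball c r) volume ∧
    (⨍ x in ball c r, |g x - ⨍ y in ball c r, g y|) ≤ C * M

lemma Lam_le {Om : ℝ → ℝ} (hOm : Measurable Om) (hi : Integrable Om muI)
    (h0 : ∫ θ, Om θ ∂muI = 0) {C : ℝ} (hC : BMOBound (K Om) C) {f : ℂ → ℝ} (hf : TF f)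
    (hf1 : ∀ x, |f x| ≤ 1) :
    |Lam Om f| ≤ 2 * (volume.real (ball (0:ℂ) 1) * C) := by
  classical
  let g : ℂ → ℝ := fun x => if ‖x‖ < 1 then T Om f x else (pv_exists hOm hi h0 hf x).choose
  have hg : ∀ x, Tendsto (fun ε : ℝ => ∫ y in {y : ℂ | ε < ‖y‖}, K Om y * f (x - y))
      (𝓝[>] 0) (𝓝 (g x)) := by
    intro x
    by_cases hx : ‖x‖ < 1
    · have : g x = T Om f x := if_pos hx
      rw [this]
      apply tendsto_const_nhds.congr'
      have h2 : ∀ᶠ ε in 𝓝[>] (0:ℝ), ε < 3 := nhdsWithin_le_nhds (Iio_mem_nhds (by norm_num))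
      filter_upwards [h2] with ε hε
      exact (T_trunc hf hx hε).symm
    · have : g x = (pv_exists hOm hi h0 hf x).choose := if_neg hx
      rw [this]
      exact (pv_exists hOm hi h0 hf x).choose_spec
  obtain ⟨hgi, hgb⟩ := hC f 1 hf.cont.measurable hf.cpt hf1 g (ae_of_all _ hg) 0 1 one_pos
  set a := ⨍ y in ball (0:ℂ) 1, g y with ha
  have hgT : ∀ x : ℂ, ‖x‖ < 1 → T Om f x = g x := fun x hx => (if_pos hx).symm
  have hc := int_T_congr hgT
  have hV : 0 < volume.real (ball (0:ℂ) 1) := by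
    rw [measureReal_def]
    exact ENNReal.toReal_pos (measure_ball_pos _ _ one_pos).ne' measure_ball_lt_top.ne
  have hgai : IntegrableOn (fun x => g x - a) (ball 0 1) :=
    hgi.sub (integrableOn_const measure_ball_lt_top.ne)
  have hI : ∫ x in ball (0:ℂ) 1, |g x - a| ≤ volume.real (ball (0:ℂ) 1) * C := by
    rw [setAverage_eq, smul_eq_mul, mul_one] at hgb
    have := mul_le_mul_of_nonneg_left hgb hV.le
    rwa [← mul_assoc, mul_inv_cancel₀ hV.ne', one_mul] at this
  have hvol : volume.real B0 = volume.real Bp := by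
    unfold B0 Bp
    rw [measureReal_def, measureReal_def, Complex.volume_ball, Complex.volume_ball]
  have e0 : ∫ x in B0, g x = (∫ x in B0, (g x - a)) + volume.real B0 * a := by
    rw [integral_sub (hgi.mono_set B0_sub) (integrableOn_const measure_ball_lt_top.ne),
      setIntegral_const, smul_eq_mul]
    ring
  have ep : ∫ x in Bp, g x = (∫ x in Bp, (g x - a)) + volume.real Bp * a := by
    rw [integral_sub (hgi.mono_set Bp_sub) (integrableOn_const measure_ball_lt_top.ne),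
      setIntegral_const, smul_eq_mul]
    ring
  have hL : Lam Om f = (∫ x in B0, (g x - a)) - ∫ x in Bp, (g x - a) := by
    unfold Lam
    rw [hc.1, hc.2, e0, ep, hvol]
    ring
  have b0 : ‖∫ x in B0, (g x - a)‖ ≤ ∫ x in ball (0:ℂ) 1, |g x - a| := by
    refine (norm_integral_le_integral_norm _).trans ?_
    exact setIntegral_mono_set hgai.norm (ae_of_all _ fun x => norm_nonneg _)
      (Filter.Eventually.of_forall B0_sub)
  have bp : ‖∫ x in Bp, (g x - a)‖ ≤ ∫ x in ball (0:ℂ) 1, |g x - a| := by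
    refine (norm_integral_le_integral_norm _).trans ?_
    exact setIntegral_mono_set hgai.norm (ae_of_all _ fun x => norm_nonneg _)
      (Filter.Eventually.of_forall Bp_sub)
  rw [hL, ← Real.norm_eq_abs]
  refine (norm_sub_le _ _).trans ?_
  linarith

end

end Run7.h91.Riv
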