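import Mathlib
import Pool.Agent.Run7.h91.RivLam

set_option autoImplicit false
open MeasureTheory Set Filter Topology Metric
open scoped Real ENNReal NNReal ComplexConjugate

namespace Run7.h91.Riv

noncomputable section

/-- direction of a complex number -/
def dir (y : ℂ) : ℂ := ((‖y‖⁻¹ : ℝ) : ℂ) * y

lemma dir_norm_le (y : ℂ) : ‖dir y‖ ≤ 1 := by
  unfold dir
  rw [norm_mul, Complex.norm_real, norm_inv, norm_norm]
  exact inv_mul_le_one

lemma dir_exp {y : ℂ} (hy : y ≠ 0) : dir y = Complex.exp (Complex.arg y * Complex.I) := by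
  unfold dir
  have h := Complex.norm_mul_exp_arg_mul_I y
  have hn : (‖y‖ : ℂ) ≠ 0 := by
    exact_mod_cast (norm_ne_zero_iff.2 hy)
  nth_rw 2 [← h]
  rw [← mul_assoc]
  push_cast
  rw [inv_mul_cancel₀ hn, one_mul]

lemma exp_pow_re (a : ℝ) (m : ℕ) :
    ((Complex.exp (a * Complex.I)) ^ m).re = Real.cos (m * a) := by
  rw [← Complex.exp_nat_mul]
  have : (m : ℂ) * (a * Complex.I) = ((m * a : ℝ) : ℂ) * Complex.I := by push_cast; ring
  rw [this, Complex.exp_ofReal_mul_I_re]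

lemma exp_pow_im (a : ℝ) (m : ℕ) :
    ((Complex.exp (a * Complex.I)) ^ m).im = Real.sin (m * a) := by
  rw [← Complex.exp_nat_mul]
  have : (m : ℂ) * (a * Complex.I) = ((m * a : ℝ) : ℂ) * Complex.I := by push_cast; ring
  rw [this, Complex.exp_ofReal_mul_I_im]

lemma K_cos (m : ℕ) (y : ℂ) :
    K (fun θ => Real.cos (m * θ)) y = ((dir y) ^ m).re * (‖y‖ ^ 2)⁻¹ := by
  by_cases hy : y = 0
  · simp [K, hy]
  · unfold K
    rw [dir_exp hy, exp_pow_re]

lemma K_sin (m : ℕ) (y : ℂ) :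
    K (fun θ => Real.sin (m * θ)) y = ((dir y) ^ m).im * (‖y‖ ^ 2)⁻¹ := by
  by_cases hy : y = 0
  · simp [K, hy]
  · unfold K
    rw [dir_exp hy, exp_pow_im]

/-- the basic bump -/
def eta0 : ContDiffBump (1 : ℂ) where
  rIn := 1/20
  rOut := 1/10
  rIn_pos := by norm_num
  rIn_lt_rOut := by norm_num

/-- dilated bump -/
def eta (R : ℝ) (y : ℂ) : ℝ := eta0 (((R⁻¹ : ℝ) : ℂ) * y)

lemma eta_nonneg (R : ℝ) (y : ℂ) : 0 ≤ eta R y := eta0.nonneg

lemma eta_le_one (R : ℝ) (y : ℂ) : eta R y ≤ 1 := eta0.le_one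

lemma eta_supp {R : ℝ} (hR : 0 < R) {y : ℂ} (h : eta R y ≠ 0) : ‖y - R‖ < R / 10 := by
  have h1 : ((R⁻¹ : ℝ) : ℂ) * y ∈ Function.support (eta0 : ℂ → ℝ) := h
  rw [eta0.support_eq, mem_ball, dist_eq_norm] at h1
  have h2 : (eta0).rOut = 1/10 := rfl
  rw [h2] at h1
  have h3 : ((R⁻¹ : ℝ) : ℂ) * y - 1 = ((R⁻¹ : ℝ) : ℂ) * (y - R) := by
    have : (R : ℂ) ≠ 0 := by exact_mod_cast hR.ne'
    push_cast
    field_simp
  rw [h3, norm_mul, Complex.norm_real, norm_inv, Real.norm_of_nonneg hR.le] at h1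
  rw [inv_mul_lt_iff₀ hR] at h1
  linarith

lemma eta_contDiff (R : ℝ) : ContDiff ℝ 1 (eta R) := by
  unfold eta
  exact eta0.contDiff.comp (contDiff_const.mul contDiff_id)

/-- cosine test function -/
def fC (m : ℕ) (R : ℝ) (y : ℂ) : ℝ := eta R y * ((dir (-y)) ^ m).re

/-- sine test function -/
def fS (m : ℕ) (R : ℝ) (y : ℂ) : ℝ := eta R y * ((dir (-y)) ^ m).im

lemma pow_norm_le (m : ℕ) (y : ℂ) : ‖(dir (-y)) ^ m‖ ≤ 1 := by
  rw [norm_pow]
  exact pow_le_one₀ (norm_nonneg _) (dir_norm_le _)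

lemma fC_le (m : ℕ) (R : ℝ) (y : ℂ) : |fC m R y| ≤ 1 := by
  unfold fC
  rw [abs_mul, abs_of_nonneg (eta_nonneg R y)]
  calc eta R y * |((dir (-y)) ^ m).re| ≤ 1 * 1 := by
        apply mul_le_mul (eta_le_one R y) _ (abs_nonneg _) zero_le_one
        exact (Complex.abs_re_le_norm _).trans (pow_norm_le m y)
    _ = 1 := one_mul 1

lemma fS_le (m : ℕ) (R : ℝ) (y : ℂ) : |fS m R y| ≤ 1 := by
  unfold fS
  rw [abs_mul, abs_of_nonneg (eta_nonneg R y)]
  calc eta R y * |((dir (-y)) ^ m).im| ≤ 1 * 1 := by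
        apply mul_le_mul (eta_le_one R y) _ (abs_nonneg _) zero_le_one
        exact (Complex.abs_im_le_norm _).trans (pow_norm_le m y)
    _ = 1 := one_mul 1

lemma dir_contDiffAt {y : ℂ} (hy : y ≠ 0) (m : ℕ) :
    ContDiffAt ℝ 1 (fun y : ℂ => (dir (-y)) ^ m) y := by
  apply ContDiffAt.pow
  unfold dir
  apply ContDiffAt.mul _ contDiffAt_id.neg
  have h1 : ContDiffAt ℝ 1 (fun y : ℂ => ‖-y‖⁻¹) y := by
    apply ContDiffAt.inv
    · exact (contDiffAt_id.neg).norm ℝ (neg_ne_zero.2 hy)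
    · exact norm_ne_zero_iff.2 (neg_ne_zero.2 hy)
  exact Complex.ofRealCLM.contDiff.contDiffAt.comp y h1

lemma smooth_aux {R : ℝ} (hR : 50 ≤ R) (h : ℂ → ℝ) (hh : ∀ y, y ≠ 0 → ContDiffAt ℝ 1 h y) :
    ContDiff ℝ 1 (fun y => eta R y * h y) := by
  rw [contDiff_iff_contDiffAt]
  intro y
  by_cases hy : y = 0
  · have h1 : (fun y => eta R y * h y) =ᶠ[𝓝 y] fun _ => 0 := by
      rw [hy]
      have : ball (0:ℂ) 1 ∈ 𝓝 (0:ℂ) := ball_mem_nhds _ one_pos
      filter_upwards [this] with z hz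
      have hz' : ‖z‖ < 1 := mem_ball_zero_iff.1 hz
      have : eta R z = 0 := by
        by_contra hcon
        have h2 := eta_supp (by linarith : (0:ℝ) < R) hcon
        have h3 := norm_sub_norm_le (R:ℂ) z
        rw [Complex.norm_real, Real.norm_of_nonneg (by linarith), norm_sub_rev] at h3
        linarith
      rw [this, zero_mul]
    exact contDiffAt_const.congr_of_eventuallyEq h1
  · exact (eta_contDiff R).contDiffAt.mul (hh y hy)

lemma eta_norm {R : ℝ} (hR : 50 ≤ R) {y : ℂ} (h : eta R y ≠ 0) :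
    9 * R / 10 < ‖y‖ ∧ ‖y‖ < 11 * R / 10 := by
  have h2 := eta_supp (by linarith : (0:ℝ) < R) h
  have h3 := norm_sub_norm_le (R:ℂ) y
  have h4 := norm_sub_norm_le y (R:ℂ)
  rw [Complex.norm_real, Real.norm_of_nonneg (by linarith), norm_sub_rev] at h3
  rw [Complex.norm_real, Real.norm_of_nonneg (by linarith)] at h4
  constructor <;> linarith

lemma TF_aux {R : ℝ} (hR : 50 ≤ R) (h : ℂ → ℝ) (hh : ∀ y, y ≠ 0 → ContDiffAt ℝ 1 h y) :
    TF (fun y => eta R y * h y) := by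
  refine ⟨smooth_aux hR h hh, ⟨11 * R / 10, by linarith, ?_⟩, ?_⟩
  · intro x hx
    by_contra hcon
    have h1 : eta R x ≠ 0 := fun h0 => hcon (by rw [h0, zero_mul])
    have := (eta_norm hR h1).2
    linarith
  · intro x hx
    by_contra hcon
    have h1 : eta R x ≠ 0 := fun h0 => hcon (by rw [h0, zero_mul])
    have := (eta_norm hR h1).1
    linarith

lemma fC_TF (m : ℕ) {R : ℝ} (hR : 50 ≤ R) : TF (fC m R) :=
  TF_aux hR _ fun y hy => Complex.reCLM.contDiff.contDiffAt.comp y (dir_contDiffAt hy m)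

lemma fS_TF (m : ℕ) {R : ℝ} (hR : 50 ≤ R) : TF (fS m R) :=
  TF_aux hR _ fun y hy => Complex.imCLM.contDiff.contDiffAt.comp y (dir_contDiffAt hy m)

/-- the combined integrand -/
def G (m : ℕ) (R : ℝ) (x y : ℂ) : ℝ :=
  eta R y * ((‖x - y‖ ^ 2)⁻¹ * ((dir (x - y) * conj (dir (-y))) ^ m).re)

lemma T_sum_eq (m : ℕ) {R : ℝ} (hR : 50 ≤ R) {x : ℂ} (hx : ‖x‖ < 1) :
    T (fun θ => Real.cos (m * θ)) (fC m R) x + T (fun θ => Real.sin (m * θ)) (fS m R) x
      = ∫ y, G m R x y := by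
  have hc : Measurable (fun θ : ℝ => Real.cos (m * θ)) := by fun_prop
  have hs : Measurable (fun θ : ℝ => Real.sin (m * θ)) := by fun_prop
  have hci : Integrable (fun θ : ℝ => Real.cos (m * θ)) muI := by
    refine Measure.integrableOn_of_bounded (M := 1) measure_Ioo_lt_top.ne
      hc.aestronglyMeasurable (ae_of_all _ fun θ => Real.abs_cos_le_one _)
  have hsi : Integrable (fun θ : ℝ => Real.sin (m * θ)) muI := by
    refine Measure.integrableOn_of_bounded (M := 1) measure_Ioo_lt_top.ne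
      hs.aestronglyMeasurable (ae_of_all _ fun θ => Real.abs_sin_le_one _)
  unfold T
  rw [← integral_add (T_integrable hc hci (fC_TF m hR) hx) (T_integrable hs hsi (fS_TF m hR) hx)]
  rw [← integral_sub_left_eq_self (G m R x) volume x]
  congr 1
  funext y
  rw [K_cos, K_sin]
  unfold fC fS G
  rw [sub_sub_cancel, mul_pow, ← map_pow, Complex.mul_re, Complex.conj_re, Complex.conj_im]
  ring

lemma dir_quot {x y : ℂ} (hy : y ≠ 0) (hxy : x - y ≠ 0) :
    dir (x - y) * conj (dir (-y)) = Complex.exp (Complex.arg (1 - x / y) * Complex.I) := by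
  have h1 : (1 - x / y) ≠ 0 := by
    intro h
    apply hxy
    field_simp at h
    linear_combination -h
  rw [← dir_exp h1]
  unfold dir
  have h2 : x - y = -y * (1 - x/y) := by field_simp; ring
  have h3 : ‖x - y‖ = ‖y‖ * ‖1 - x/y‖ := by rw [h2, norm_mul, norm_neg]
  rw [h3, map_mul, Complex.conj_ofReal, map_neg, norm_neg]
  have h4 : y * conj y = (‖y‖ : ℂ) ^ 2 := by
    rw [Complex.mul_conj, Complex.normSq_eq_norm_sq]; push_cast; ring
  have h5 : (‖y‖ : ℂ) ≠ 0 := by exact_mod_cast norm_ne_zero_iff.2 hy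
  have h6 : (‖1 - x/y‖ : ℂ) ≠ 0 := by exact_mod_cast norm_ne_zero_iff.2 h1
  rw [h2]
  push_cast
  rw [mul_inv]
  calc _ = (‖y‖:ℂ)⁻¹ * (‖y‖:ℂ)⁻¹ * (y * conj y) * ((‖1 - x/y‖ : ℂ)⁻¹ * (1 - x/y)) := by ring
    _ = _ := by rw [h4]; field_simp

lemma arg_bound {u : ℂ} (hu : ‖u‖ ≤ 1/2) : |Complex.arg (1 - u) + u.im| ≤ ‖u‖ ^ 2 := by
  have h1 := Complex.norm_log_one_add_sub_self_le (z := -u) (by rw [norm_neg]; linarith)
  rw [norm_neg, sub_neg_eq_add, ← sub_eq_add_neg] at h1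
  have h2 : Complex.arg (1 - u) + u.im = (Complex.log (1 - u) + u).im := by
    rw [Complex.add_im, Complex.log_im]
  rw [h2]
  refine (Complex.abs_im_le_norm _).trans (h1.trans ?_)
  have h3 : (1 - ‖u‖)⁻¹ ≤ 2 := by
    rw [inv_le_comm₀ (by linarith) (by norm_num)]
    linarith
  have h4 : 0 ≤ ‖u‖ ^ 2 := by positivity
  nlinarith

lemma cos_ge {t : ℝ} (ht : |t| ≤ 1) : 1/2 ≤ Real.cos t := by
  have h1 := Real.one_sub_sq_div_two_le_cos (x := t)
  have h2 : t ^ 2 ≤ 1 := by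
    rw [← sq_abs]
    exact pow_le_one₀ (abs_nonneg _) ht
  linarith

end

end Run7.h91.Riv
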