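import Mathlib
import Pool.Agent.Run7.h91.RivLam

set_option autoImplicit false
open MeasureTheory Set Filter Topology Metric
open scoped Real ENNReal NNReal

namespace Run7.h91.Riv

noncomputable section

/-- The Hilbert space of angular parts. -/
abbrev X : Type := Lp ℝ 2 muI

/-- The mean-free representative. -/
def Omw (w : X) (θ : ℝ) : ℝ := w θ - (2 * π)⁻¹ * ∫ t, w t ∂muI

instance : IsFiniteMeasure muI := by
  refine ⟨?_⟩
  rw [Measure.restrict_apply_univ]
  exact measure_Ioo_lt_top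

lemma muI_univ : muI.real univ = 2 * π := by
  rw [measureReal_restrict_apply_univ, Real.volume_real_Ioo_of_le (by linarith [Real.pi_pos])]
  ring

lemma w_meas (w : X) : Measurable (w : ℝ → ℝ) := (Lp.stronglyMeasurable w).measurable

lemma w_int (w : X) : Integrable (w : ℝ → ℝ) muI := (Lp.memLp w).integrable one_le_two

lemma Omw_meas (w : X) : Measurable (Omw w) := (w_meas w).sub measurable_const

lemma Omw_int (w : X) : Integrable (Omw w) muI := (w_int w).sub (integrable_const _)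

lemma Omw_zero (w : X) : ∫ θ, Omw w θ ∂muI = 0 := by
  unfold Omw
  rw [integral_sub (w_int w) (integrable_const _), integral_const, muI_univ, smul_eq_mul]
  have := Real.pi_pos
  field_simp
  ring

lemma Omw_sq (w : X) : Integrable (fun θ => Omw w θ ^ 2) muI := by
  have h1 : MemLp (Omw w) 2 muI := (Lp.memLp w).sub (memLp_const _)
  exact h1.integrable_sq

lemma l1_le (w : X) : ∫ θ, |w θ| ∂muI ≤ (muI univ ^ (1/2:ℝ)).toReal * ‖w‖ := by
  have h1 : ∫ θ, |w θ| ∂muI = (eLpNorm w 1 muI).toReal := by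
    rw [eLpNorm_one_eq_lintegral_enorm, ← integral_norm_eq_lintegral_enorm
      (Lp.aestronglyMeasurable w)]
    rfl
  have h2 := eLpNorm_le_eLpNorm_mul_rpow_measure_univ (μ := muI) (p := 1) (q := 2) (f := w)
    one_le_two (Lp.aestronglyMeasurable w)
  rw [h1, Lp.norm_def, mul_comm, ← ENNReal.toReal_mul]
  apply ENNReal.toReal_mono
  · apply ENNReal.mul_ne_top (Lp.eLpNorm_ne_top w)
    apply ENNReal.rpow_ne_top_of_nonneg (by norm_num) (measure_ne_top _ _)
  · refine h2.trans (le_of_eq ?_)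
    congr 2
    norm_num

lemma Omw_l1 (w : X) : ∫ θ, |Omw w θ| ∂muI ≤ 2 * ((muI univ ^ (1/2:ℝ)).toReal * ‖w‖) := by
  have h1 : ∀ θ, |Omw w θ| ≤ |w θ| + |(2 * π)⁻¹ * ∫ t, w t ∂muI| := fun θ => abs_sub _ _
  have h2 : ∫ θ, |Omw w θ| ∂muI ≤ ∫ θ, (|w θ| + |(2 * π)⁻¹ * ∫ t, w t ∂muI|) ∂muI :=
    integral_mono (Omw_int w).abs ((w_int w).abs.add (integrable_const _)) h1
  rw [integral_add (w_int w).abs (integrable_const _), integral_const, muI_univ, smul_eq_mul,
    abs_mul, abs_of_pos (a := (2 * π)⁻¹) (by have := Real.pi_pos; positivity), ← mul_assoc,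
    mul_inv_cancel₀ (by have := Real.pi_pos; positivity), one_mul] at h2
  have h3 : |∫ t, w t ∂muI| ≤ ∫ t, |w t| ∂muI := abs_integral_le_integral_abs
  have h4 := l1_le w
  linarith

lemma Omw_add (w w' : X) : Omw (w + w') =ᵐ[muI] fun θ => Omw w θ + Omw w' θ := by
  have h1 := Lp.coeFn_add w w'
  have h2 : ∫ t, (w + w') t ∂muI = (∫ t, w t ∂muI) + ∫ t, w' t ∂muI := by
    rw [integral_congr_ae h1]
    exact integral_add (w_int w) (w_int w')
  filter_upwards [h1] with θ hθ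
  unfold Omw
  rw [h2, hθ, Pi.add_apply]
  ring

lemma Omw_smul (c : ℝ) (w : X) : Omw (c • w) =ᵐ[muI] fun θ => c * Omw w θ := by
  have h1 := Lp.coeFn_smul c w
  have h2 : ∫ t, (c • w) t ∂muI = c * (∫ t, w t ∂muI) := by
    rw [integral_congr_ae h1, ← integral_const_mul]
    rfl
  filter_upwards [h1] with θ hθ
  unfold Omw
  rw [h2, hθ, Pi.smul_apply, smul_eq_mul]
  ring

lemma phi_exists {f : ℂ → ℝ} (hf : TF f) : ∃ φ : X →L[ℝ] ℝ, ∀ w, φ w = Lam (Omw w) f := by
  obtain ⟨C, hC0, hC⟩ := Lam_bound hf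
  let φ0 : X →ₗ[ℝ] ℝ :=
    { toFun := fun w => Lam (Omw w) f
      map_add' := fun w w' => by
        rw [Lam_congr (Omw_add w w') f,
          Lam_add (Omw_meas w) (Omw_int w) (Omw_meas w') (Omw_int w') hf]
      map_smul' := fun c w => by
        rw [Lam_congr (Omw_smul c w) f, Lam_smul]
        rfl }
  refine ⟨φ0.mkContinuous (C * (2 * (muI univ ^ (1/2:ℝ)).toReal)) ?_, fun w => rfl⟩
  intro w
  have h1 := hC (Omw w) (Omw_meas w) (Omw_int w)
  have h2 := Omw_l1 w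
  calc ‖φ0 w‖ ≤ C * ∫ θ, |Omw w θ| ∂muI := h1
    _ ≤ C * (2 * ((muI univ ^ (1/2:ℝ)).toReal * ‖w‖)) := mul_le_mul_of_nonneg_left h2 hC0
    _ = _ := by ring

/-- lower bound on the norm from a bounded mean-free test -/
lemma phi_lower {f : ℂ → ℝ} {φ : X →L[ℝ] ℝ} (hφ : ∀ w, φ w = Lam (Omw w) f)
    {Om : ℝ → ℝ} (hOm : Measurable Om) (hb : ∀ θ, |Om θ| ≤ 1) (h0 : ∫ θ, Om θ ∂muI = 0) :
    |Lam Om f| ≤ ‖φ‖ * (muI univ ^ (2:ℝ≥0∞).toReal⁻¹).toReal := by
  have hm : MemLp Om 2 muI := MemLp.of_bound hOm.aestronglyMeasurable 1 (ae_of_all _ hb)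
  have h1 : Omw (hm.toLp Om) =ᵐ[muI] Om := by
    have h2 := hm.coeFn_toLp
    have h3 : ∫ t, (hm.toLp Om) t ∂muI = 0 := by rw [integral_congr_ae h2, h0]
    filter_upwards [h2] with θ hθ
    unfold Omw
    rw [h3, hθ, mul_zero, sub_zero]
  have h4 : φ (hm.toLp Om) = Lam Om f := by rw [hφ, Lam_congr h1]
  have h5 := φ.le_opNorm (hm.toLp Om)
  rw [h4, Real.norm_eq_abs] at h5
  refine h5.trans (mul_le_mul_of_nonneg_left ?_ (norm_nonneg _))
  rw [Lp.norm_toLp]
  have h6 := eLpNorm_le_of_ae_bound (μ := muI) (p := 2) (f := Om) (C := 1) (ae_of_all _ hb)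
  rw [ENNReal.ofReal_one, mul_one] at h6
  apply ENNReal.toReal_mono _ h6
  apply ENNReal.rpow_ne_top_of_nonneg (by positivity) (measure_ne_top _ _)

end

end Run7.h91.Riv
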