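import Mathlib
import Pool.Agent.Run7.h91.RivKey
import Pool.Agent.Run7.h91.RivL2
import Pool.Agent.Run7.h91.RivBS

set_option autoImplicit false
open MeasureTheory Set Filter Topology Metric
open scoped Real ENNReal NNReal ComplexConjugate

namespace Run7.h91.Riv

noncomputable section

lemma weight_low {R : ℝ} (hR : 50 ≤ R) {x y : ℂ} (hx : ‖x‖ < 1) (hy : 9 * R / 10 < ‖y‖)
    (hy' : ‖y‖ < 11 * R / 10) : (4 * R ^ 2)⁻¹ ≤ (‖x - y‖ ^ 2)⁻¹ := by
  have h1 := norm_sub_norm_le y x
  rw [norm_sub_rev] at h1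
  have h2 := norm_sub_le x y
  have h3 : 0 < ‖x - y‖ := by linarith
  apply inv_anti₀ (by positivity)
  have h4 : ‖x - y‖ ≤ 2 * R := by linarith
  nlinarith

lemma G_low0 {m : ℕ} {R : ℝ} (hR : 50 ≤ R) (hm : (m:ℝ) = 2 * π * R) {x : ℂ} (hx : x ∈ B0)
    (y : ℂ) : eta R y * (8 * R ^ 2)⁻¹ ≤ G m R x y := by
  by_cases he : eta R y = 0
  · unfold G; rw [he, zero_mul, zero_mul]
  obtain ⟨hy1, hy2⟩ := eta_norm hR he
  have hx1 : ‖x‖ < 1/100 := mem_ball_zero_iff.1 hx
  unfold G
  apply mul_le_mul_of_nonneg_left _ (eta_nonneg R y)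
  have hw := weight_low hR (x := x) (by linarith) hy1 hy2
  have hy0 : 0 < ‖y‖ := by linarith
  have hyne : y ≠ 0 := norm_pos_iff.1 hy0
  have hxy : x - y ≠ 0 := by
    intro h
    have : x = y := sub_eq_zero.1 h
    rw [this] at hx1
    linarith
  have hu : ‖x / y‖ ≤ 1 / (90 * R) := by
    rw [norm_div, div_le_div_iff₀ hy0 (by positivity)]
    nlinarith [norm_nonneg x]
  have hu2 : ‖x / y‖ ≤ 1/2 := by
    refine hu.trans ?_
    rw [div_le_div_iff₀ (by positivity) (by norm_num)]
    linarith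
  have hcos : 1/2 ≤ ((dir (x - y) * conj (dir (-y))) ^ m).re := by
    rw [dir_quot hyne hxy, exp_pow_re]
    apply cos_ge
    have h1 := arg_bound hu2
    have h2 : |Complex.arg (1 - x/y)| ≤ ‖x/y‖ ^ 2 + ‖x/y‖ := by
      have h3 : Complex.arg (1 - x/y) = (Complex.arg (1 - x/y) + (x/y).im) - (x/y).im := by ring
      rw [h3]
      exact (abs_sub _ _).trans (add_le_add h1 (Complex.abs_im_le_norm _))
    have h4 : ‖x/y‖ ^ 2 + ‖x/y‖ ≤ 2 * (1 / (90 * R)) := by
      have h5 : ‖x/y‖ ^ 2 ≤ ‖x/y‖ := by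
        rw [sq]
        exact mul_le_of_le_one_left (norm_nonneg _) (by linarith)
      linarith
    rw [abs_mul, Nat.abs_cast, hm]
    calc 2 * π * R * |Complex.arg (1 - x/y)| ≤ 2 * π * R * (2 * (1 / (90 * R))) := by
          apply mul_le_mul_of_nonneg_left (h2.trans h4)
          have := Real.pi_pos
          positivity
      _ = 4 * π / 90 := by
          have : R ≠ 0 := by linarith
          field_simp
          ring
      _ ≤ 1 := by
          have := Real.pi_lt_four
          linarith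
  calc (8 * R ^ 2)⁻¹ = (4 * R^2)⁻¹ * (1/2) := by
        have : R ≠ 0 := by linarith
        field_simp
        norm_num
    _ ≤ (‖x - y‖ ^ 2)⁻¹ * ((dir (x - y) * conj (dir (-y))) ^ m).re := by
        apply mul_le_mul hw hcos (by norm_num) (by positivity)

lemma G_lowp {m : ℕ} {R : ℝ} (hR : 50 ≤ R) (hm : (m:ℝ) = 2 * π * R) {x : ℂ} (hx : x ∈ Bp)
    (y : ℂ) : G m R x y ≤ -(eta R y * (8 * R ^ 2)⁻¹) := by
  by_cases he : eta R y = 0
  · unfold G; rw [he, zero_mul, zero_mul, neg_zero]
  obtain ⟨hy1, hy2⟩ := eta_norm hR he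
  have hyR := eta_supp (by linarith : (0:ℝ) < R) he
  have hx1 : ‖x‖ < 51/100 := Bp_norm hx
  have hx2 : ‖x - Complex.I/2‖ < 1/100 := by
    have := mem_ball.1 hx
    rwa [dist_eq_norm] at this
  unfold G
  rw [← mul_neg]
  apply mul_le_mul_of_nonneg_left _ (eta_nonneg R y)
  have hw := weight_low hR (x := x) (by linarith) hy1 hy2
  have hR0 : 0 < R := by linarith
  have hy0 : 0 < ‖y‖ := by linarith
  have hyne : y ≠ 0 := norm_pos_iff.1 hy0
  have hxy : x - y ≠ 0 := by
    intro h
    have : x = y := sub_eq_zero.1 h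
    rw [this] at hx1
    linarith
  have hu : ‖x / y‖ ≤ 51 / (90 * R) := by
    rw [norm_div, div_le_div_iff₀ hy0 (by positivity)]
    nlinarith [norm_nonneg x]
  have hu2 : ‖x / y‖ ≤ 1/2 := by
    refine hu.trans ?_
    rw [div_le_div_iff₀ (by positivity) (by norm_num)]
    linarith
  have hpi := Real.pi_pos
  have hpi2 : π < 3.15 := Real.pi_lt_d2
  have hcos : ((dir (x - y) * conj (dir (-y))) ^ m).re ≤ -(1/2) := by
    rw [dir_quot hyne hxy, exp_pow_re]
    set a := Complex.arg (1 - x/y) with ha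
    have h1 : |a + (x/y).im| ≤ ‖x/y‖ ^ 2 := arg_bound hu2
    -- decomposition
    have hsplit : x / y = (Complex.I / 2) / y + (x - Complex.I/2) / y := by
      rw [← add_div]; congr 1; ring
    have him : (x/y).im = ((Complex.I/2)/y).im + ((x - Complex.I/2)/y).im := by
      rw [← Complex.add_im, ← hsplit]
    have h2 : |((x - Complex.I/2)/y).im| ≤ 1 / (90 * R) := by
      refine (Complex.abs_im_le_norm _).trans ?_
      rw [norm_div, div_le_div_iff₀ hy0 (by positivity)]
      nlinarith [norm_nonneg (x - Complex.I/2)]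
    have h3 : (m:ℝ) * ((Complex.I/2)/y).im = π * ((R:ℂ)/y).re := by
      have e1 : (Complex.I/2)/y = ((1/(2*R) : ℝ) : ℂ) * (((R:ℂ)/y) * Complex.I) := by
        have : (R:ℂ) ≠ 0 := by exact_mod_cast hR0.ne'
        push_cast
        field_simp
      rw [e1, Complex.im_ofReal_mul, Complex.mul_I_im, hm]
      field_simp
    have h4 : |((R:ℂ)/y).re - 1| ≤ 1/9 := by
      have e2 : ((R:ℂ)/y).re - 1 = ((R - y)/y).re := by
        rw [sub_div, div_self hyne, Complex.sub_re, Complex.one_re]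
      rw [e2]
      refine (Complex.abs_re_le_norm _).trans ?_
      rw [norm_div, norm_sub_rev, div_le_div_iff₀ hy0 (by norm_num)]
      linarith
    have h5 : (m:ℝ) * a = (m * (a + (x/y).im) - π * (((R:ℂ)/y).re - 1)
        - m * ((x - Complex.I/2)/y).im) - π := by
      rw [him]
      linear_combination (-1:ℝ) * h3
    set t := (m:ℝ) * (a + (x/y).im) - π * (((R:ℂ)/y).re - 1)
        - m * ((x - Complex.I/2)/y).im with ht
    have ht1 : |t| ≤ 1 := by
      have b1 : |(m:ℝ) * (a + (x/y).im)| ≤ 2 * π * R * (51 / (90 * R)) ^ 2 := by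
        rw [abs_mul, Nat.abs_cast, hm]
        apply mul_le_mul_of_nonneg_left _ (by positivity)
        exact h1.trans (pow_le_pow_left₀ (norm_nonneg _) hu 2)
      have b1' : 2 * π * R * (51 / (90 * R)) ^ 2 ≤ 1/10 := by
        have : 2 * π * R * (51 / (90 * R)) ^ 2 = (2 * π * 2601 / 8100) / R := by
          field_simp
          norm_num
        rw [this, div_le_iff₀ hR0]
        linarith
      have b2 : |π * (((R:ℂ)/y).re - 1)| ≤ π * (1/9) := by
        rw [abs_mul, abs_of_pos hpi]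
        exact mul_le_mul_of_nonneg_left h4 hpi.le
      have b3 : |(m:ℝ) * ((x - Complex.I/2)/y).im| ≤ 2 * π * R * (1 / (90 * R)) := by
        rw [abs_mul, Nat.abs_cast, hm]
        exact mul_le_mul_of_nonneg_left h2 (by positivity)
      have b3' : 2 * π * R * (1 / (90 * R)) = 2 * π / 90 := by
        field_simp
      have b4 := (abs_sub (m * (a + (x/y).im) - π * (((R:ℂ)/y).re - 1))
        (m * ((x - Complex.I/2)/y).im)).trans (add_le_add_left (abs_sub (m * (a + (x/y).im)) (π * (((R:ℂ)/y).re - 1))) _)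
      rw [ht]
      linarith
    rw [h5, Real.cos_sub_pi]
    have := cos_ge ht1
    linarith
  have hmul : (4 * R^2)⁻¹ * (1/2) ≤ (‖x - y‖ ^ 2)⁻¹ * -((dir (x - y) * conj (dir (-y))) ^ m).re := by
    apply mul_le_mul hw (by linarith) (by norm_num) (by positivity)
  have e8 : (8 * R ^ 2)⁻¹ = (4 * R^2)⁻¹ * (1/2) := by
    field_simp
    norm_num
  rw [e8]
  linarith

lemma int_eta {R : ℝ} (hR : 0 < R) : ∫ y, eta R y = R ^ 2 * ∫ y, eta0 y := by
  unfold eta
  have h1 := Measure.integral_comp_smul (volume : Measure ℂ) (fun y => eta0 y) R⁻¹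
  have h2 : ∀ y : ℂ, (R⁻¹ : ℝ) • y = ((R⁻¹ : ℝ) : ℂ) * y := fun y => Complex.real_smul
  simp_rw [h2] at h1
  rw [h1, Complex.finrank_real_complex, smul_eq_mul, inv_pow, inv_inv, abs_of_pos (by positivity)]

lemma eta_int (R : ℝ) (hR : 50 ≤ R) : Integrable (eta R) := by
  have h1 : HasCompactSupport (eta R) := by
    apply HasCompactSupport.of_support_subset_isCompact (isCompact_closedBall (0:ℂ) (11 * R / 10))
    intro y hy
    rw [mem_closedBall_zero_iff]
    exact (eta_norm hR hy).2.le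
  exact (eta_contDiff R).continuous.integrable_of_hasCompactSupport h1

/-- the constant -/
def c1 : ℝ := 2 * (volume.real B0 * ((∫ y, eta0 y) / 8))

lemma eta0_int_pos : 0 < ∫ y, eta0 y := eta0.integral_pos

lemma volB0 : 0 < volume.real B0 := by
  rw [measureReal_def]
  exact ENNReal.toReal_pos (measure_ball_pos _ _ (by norm_num)).ne' measure_ball_lt_top.ne

lemma c1_pos : 0 < c1 := by
  have := eta0_int_pos
  have := volB0
  unfold c1
  positivity

lemma hc_meas (m : ℕ) : Measurable (fun θ : ℝ => Real.cos (m * θ)) := by fun_prop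
lemma hs_meas (m : ℕ) : Measurable (fun θ : ℝ => Real.sin (m * θ)) := by fun_prop
lemma hc_int (m : ℕ) : Integrable (fun θ : ℝ => Real.cos (m * θ)) muI :=
  Measure.integrableOn_of_bounded (M := 1) measure_Ioo_lt_top.ne
      (hc_meas m).aestronglyMeasurable (ae_of_all _ fun _ => Real.abs_cos_le_one _)
lemma hs_int (m : ℕ) : Integrable (fun θ : ℝ => Real.sin (m * θ)) muI :=
  Measure.integrableOn_of_bounded (M := 1) measure_Ioo_lt_top.ne
      (hs_meas m).aestronglyMeasurable (ae_of_all _ fun _ => Real.abs_sin_le_one _)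

lemma Lam_sum_ge {m : ℕ} {R : ℝ} (hR : 50 ≤ R) (hm : (m:ℝ) = 2 * π * R) :
    c1 ≤ Lam (fun θ => Real.cos (m * θ)) (fC m R) + Lam (fun θ => Real.sin (m * θ)) (fS m R) := by
  have hR0 : 0 < R := by linarith
  set S : ℂ → ℝ := fun x => T (fun θ => Real.cos (m * θ)) (fC m R) x
      + T (fun θ => Real.sin (m * θ)) (fS m R) x with hS
  have hTc := T_intOn (hc_meas m) (hc_int m) (fC_TF m hR)
  have hTs := T_intOn (hs_meas m) (hs_int m) (fS_TF m hR)
  have hSi : IntegrableOn S (ball 0 1) := hTc.add hTs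
  have hLam : Lam (fun θ => Real.cos (m * θ)) (fC m R) + Lam (fun θ => Real.sin (m * θ)) (fS m R)
      = (∫ x in B0, S x) - ∫ x in Bp, S x := by
    unfold Lam
    rw [hS, integral_add (hTc.mono_set B0_sub) (hTs.mono_set B0_sub),
      integral_add (hTc.mono_set Bp_sub) (hTs.mono_set Bp_sub)]
    ring
  have hGi : ∀ x : ℂ, ‖x‖ < 1 → Integrable (G m R x) := by
    intro x hx
    have h1 := (T_integrable (hc_meas m) (hc_int m) (fC_TF m hR) hx).add
      (T_integrable (hs_meas m) (hs_int m) (fS_TF m hR) hx)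
    rw [← integrable_comp_sub_left (G m R x) x]
    refine h1.congr (ae_of_all _ fun y => ?_)
    simp only [Pi.add_apply]
    rw [K_cos, K_sin]
    unfold fC fS G
    rw [sub_sub_cancel, mul_pow, ← map_pow, Complex.mul_re, Complex.conj_re, Complex.conj_im]
    ring
  have hJ : ∫ y, eta R y * (8 * R ^ 2)⁻¹ = (∫ y, eta0 y) / 8 := by
    rw [integral_mul_const, int_eta hR0]
    field_simp
  have hEi : Integrable (fun y => eta R y * (8 * R ^ 2)⁻¹) := (eta_int R hR).mul_const _
  have hS0 : ∀ x ∈ B0, (∫ y, eta0 y) / 8 ≤ S x := by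
    intro x hx
    have hx1 : ‖x‖ < 1 := mem_ball_zero_iff.1 (B0_sub hx)
    rw [hS]
    simp only []
    rw [T_sum_eq m hR hx1, ← hJ]
    exact integral_mono hEi (hGi x hx1) fun y => G_low0 hR hm hx y
  have hSp : ∀ x ∈ Bp, S x ≤ -((∫ y, eta0 y) / 8) := by
    intro x hx
    have hx1 : ‖x‖ < 1 := mem_ball_zero_iff.1 (Bp_sub hx)
    rw [hS]
    simp only []
    rw [T_sum_eq m hR hx1, ← hJ, ← integral_neg]
    exact integral_mono (hGi x hx1) hEi.neg fun y => G_lowp hR hm hx y
  have hvol : volume.real Bp = volume.real B0 := by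
    unfold B0 Bp
    rw [measureReal_def, measureReal_def, Complex.volume_ball, Complex.volume_ball]
  have i0 : volume.real B0 * ((∫ y, eta0 y) / 8) ≤ ∫ x in B0, S x := by
    rw [← smul_eq_mul, ← setIntegral_const]
    exact setIntegral_mono_on (integrableOn_const measure_ball_lt_top.ne) (hSi.mono_set B0_sub)
      measurableSet_ball hS0
  have ip : ∫ x in Bp, S x ≤ -(volume.real B0 * ((∫ y, eta0 y) / 8)) := by
    rw [← mul_neg, ← hvol, ← smul_eq_mul, ← setIntegral_const]
    exact setIntegral_mono_on (hSi.mono_set Bp_sub) (integrableOn_const measure_ball_lt_top.ne)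
      measurableSet_ball hSp
  rw [hLam]
  unfold c1
  linarith

end

end Run7.h91.Riv
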