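import Mathlib
import Pool.Agent.Run7.h91.RivLow

set_option autoImplicit false
open MeasureTheory Set Filter Topology Metric
open scoped Real ENNReal NNReal ComplexConjugate

namespace Run7.h91.Riv

noncomputable section

lemma int_cos_zero {m : ℕ} (hm : m ≠ 0) : ∫ θ, Real.cos (m * θ) ∂muI = 0 := by
  have hpi := Real.pi_pos
  show ∫ θ in Ioo (-π) π, Real.cos (m * θ) = 0
  rw [← integral_Ioc_eq_integral_Ioo, ← intervalIntegral.integral_of_le (by linarith),
    intervalIntegral.integral_comp_mul_left (fun x => Real.cos x) (by exact_mod_cast hm),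
    integral_cos]
  have h1 : Real.sin ((m:ℝ) * π) = 0 := Real.sin_nat_mul_pi m
  rw [mul_neg, Real.sin_neg, h1]
  simp

lemma int_sin_zero {m : ℕ} (hm : m ≠ 0) : ∫ θ, Real.sin (m * θ) ∂muI = 0 := by
  have hpi := Real.pi_pos
  show ∫ θ in Ioo (-π) π, Real.sin (m * θ) = 0
  rw [← integral_Ioc_eq_integral_Ioo, ← intervalIntegral.integral_of_le (by linarith),
    intervalIntegral.integral_comp_mul_left (fun x => Real.sin x) (by exact_mod_cast hm),
    integral_sin]
  rw [mul_neg, Real.cos_neg]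
  simp

/-- frequencies -/
def mm (l : ℕ) : ℕ := 320 * 2 ^ l

/-- radii -/
def RR (l : ℕ) : ℝ := (mm l : ℝ) / (2 * π)

lemma RR_eq (l : ℕ) : (mm l : ℝ) = 2 * π * RR l := by
  unfold RR
  have := Real.pi_pos
  field_simp

lemma RR_ge (l : ℕ) : 50 ≤ RR l := by
  unfold RR mm
  have h1 := Real.pi_pos
  have h2 : π < 3.15 := Real.pi_lt_d2
  rw [le_div_iff₀ (by positivity)]
  push_cast
  have h3 : (1:ℝ) ≤ 2 ^ l := one_le_pow₀ (by norm_num)
  nlinarith

lemma RR_lt {l k : ℕ} (h : l < k) : 2 * RR l ≤ RR k := by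
  unfold RR mm
  have h1 := Real.pi_pos
  rw [← mul_div_assoc, div_le_div_iff_of_pos_right (by positivity)]
  push_cast
  have h3 : (2:ℝ) ^ (l+1) ≤ 2 ^ k := pow_le_pow_right₀ (by norm_num) h
  rw [pow_succ] at h3
  linarith

/-- the selected test function at scale `l` -/
lemma select (l : ℕ) : ∃ f : ℂ → ℝ, TF f ∧ (∀ x, |f x| ≤ 1) ∧ (∀ x, f x ≠ 0 → eta (RR l) x ≠ 0) ∧
    ∃ Om : ℝ → ℝ, Measurable Om ∧ (∀ θ, |Om θ| ≤ 1) ∧ ∫ θ, Om θ ∂muI = 0 ∧
      c1 / 2 ≤ |Lam Om f| := by
  have h := Lam_sum_ge (RR_ge l) (RR_eq l)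
  have hm0 : mm l ≠ 0 := by unfold mm; positivity
  rcases le_total (c1/2) (Lam (fun θ => Real.cos (mm l * θ)) (fC (mm l) (RR l))) with h1 | h1
  · refine ⟨fC (mm l) (RR l), fC_TF _ (RR_ge l), fC_le _ _, ?_, _, hc_meas _,
      fun θ => Real.abs_cos_le_one _, int_cos_zero hm0, h1.trans (le_abs_self _)⟩
    intro x hx h0
    apply hx
    unfold fC
    rw [h0, zero_mul]
  · refine ⟨fS (mm l) (RR l), fS_TF _ (RR_ge l), fS_le _ _, ?_, _, hs_meas _,
      fun θ => Real.abs_sin_le_one _, int_sin_zero hm0, le_trans ?_ (le_abs_self _)⟩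
    · intro x hx h0
      apply hx
      unfold fS
      rw [h0, zero_mul]
    · linarith

lemma sum_le_one {f : ℕ → ℂ → ℝ} (h1 : ∀ l x, |f l x| ≤ 1)
    (h2 : ∀ l x, f l x ≠ 0 → eta (RR l) x ≠ 0) {ε : ℕ → ℝ} (hε : ∀ l, |ε l| ≤ 1) (N : ℕ) (x : ℂ) :
    |∑ l ∈ Finset.range N, ε l * f l x| ≤ 1 := by
  by_cases h : ∃ l ∈ Finset.range N, f l x ≠ 0
  · obtain ⟨l, hl, hlx⟩ := h
    rw [Finset.sum_eq_single l]
    · rw [abs_mul]
      exact mul_le_one₀ (hε l) (abs_nonneg _) (h1 l x)
    · intro k _ hkl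
      have : f k x = 0 := by
        by_contra hcon
        have e1 := eta_norm (RR_ge l) (h2 l x hlx)
        have e2 := eta_norm (RR_ge k) (h2 k x hcon)
        have g1 := RR_ge l
        have g2 := RR_ge k
        rcases lt_or_gt_of_ne hkl with h3 | h3
        · have := RR_lt h3
          linarith
        · have := RR_lt h3
          linarith
      rw [this, mul_zero]
    · intro hl'
      exact absurd hl hl'
  · push Not at h
    rw [Finset.sum_eq_zero]
    · simp
    · intro l hl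
      rw [h l hl, mul_zero]

/-- There is a square-integrable mean-zero angular part whose kernel has no BMO bound. -/
theorem exists_bad : ∃ w : X, ∀ C : ℝ, ¬ BMOBound (K (Omw w)) C := by
  choose f hTF hf1 hfe Om hOm hOmb hOm0 hlow using select
  choose φ hφ using fun l => phi_exists (hTF l)
  set D := (muI univ ^ (2:ℝ≥0∞).toReal⁻¹).toReal with hD
  have hD0 : 0 ≤ D := ENNReal.toReal_nonneg
  have hc1 := c1_pos
  have hnorm : ∀ l, c1 / 2 / (D + 1) ≤ ‖φ l‖ := by
    intro l
    have h1 := phi_lower (hφ l) (hOm l) (hOmb l) (hOm0 l)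
    have h2 := hlow l
    rw [div_le_iff₀ (by linarith)]
    have h3 : ‖φ l‖ * D ≤ ‖φ l‖ * (D + 1) :=
      mul_le_mul_of_nonneg_left (by linarith) (norm_nonneg _)
    linarith
  obtain ⟨w, hw⟩ := bs φ (c1 / 2 / (D + 1)) (by positivity) hnorm
  refine ⟨w, fun C hC => ?_⟩
  obtain ⟨ε, N, hε, hlt⟩ := hw (2 * (volume.real (ball (0:ℂ) 1) * C))
  have h1 : ∑ l ∈ Finset.range N, ε l * φ l w
      = Lam (Omw w) (fun x => ∑ l ∈ Finset.range N, ε l * f l x) := by
    rw [Lam_sum (Omw_meas w) (Omw_int w) hTF ε N]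
    apply Finset.sum_congr rfl
    intro l _
    rw [hφ]
  have h2 := Lam_le (Omw_meas w) (Omw_int w) (Omw_zero w) hC (TF.sum hTF ε N)
    (sum_le_one hf1 hfe hε N)
  rw [h1] at hlt
  linarith

/-- transport from Euclidean plane to the complex plane -/
lemma transport (k : ℂ → ℝ) (C : ℝ)
    (h : ∀ (f : EuclideanSpace ℝ (Fin 2) → ℝ) (M : ℝ),
      Measurable f → HasCompactSupport f → (∀ x, |f x| ≤ M) →
      ∀ g : EuclideanSpace ℝ (Fin 2) → ℝ,
        (∀ᵐ x ∂(volume : Measure (EuclideanSpace ℝ (Fin 2))),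
          Tendsto (fun ε : ℝ => ∫ y in {y : EuclideanSpace ℝ (Fin 2) | ε < ‖y‖},
            k (Complex.orthonormalBasisOneI.repr.symm y) * f (x - y))
            (𝓝[>] 0) (𝓝 (g x))) →
        ∀ (c : EuclideanSpace ℝ (Fin 2)) (r : ℝ), 0 < r →
          IntegrableOn g (ball c r) volume ∧
          (⨍ x in ball c r, |g x - ⨍ y in ball c r, g y|) ≤ C * M) :
    BMOBound k C := by
  intro f M hf hfc hfM g hg c r hr
  let e := Complex.orthonormalBasisOneI.repr
  have hmp : MeasurePreserving e.symm (volume : Measure (EuclideanSpace ℝ (Fin 2)))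
    (volume : Measure ℂ) := e.symm.measurePreserving
  have hme : MeasurableEmbedding e.symm := e.symm.toHomeomorph.measurableEmbedding
  have hball : e.symm ⁻¹' ball c r = ball (e c) r := by
    rw [LinearIsometryEquiv.preimage_ball, LinearIsometryEquiv.symm_symm]
  obtain ⟨h1, h2⟩ := h (f ∘ e.symm) M (hf.comp e.symm.continuous.measurable)
    (hfc.comp_homeomorph e.symm.toHomeomorph) (fun x => hfM _) (g ∘ e.symm) (by
      have h3 := hmp.quasiMeasurePreserving.ae hg
      filter_upwards [h3] with x hx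
      refine hx.congr fun ε => ?_
      have h4 := hmp.setIntegral_preimage_emb hme
        (fun y => k y * f (e.symm x - y)) {y : ℂ | ε < ‖y‖}
      rw [← h4]
      have h5 : e.symm ⁻¹' {y : ℂ | ε < ‖y‖} = {y : EuclideanSpace ℝ (Fin 2) | ε < ‖y‖} := by
        ext y
        show ε < ‖e.symm y‖ ↔ ε < ‖y‖
        rw [LinearIsometryEquiv.norm_map]
      rw [h5]
      simp only [Function.comp_apply, map_sub]
      rfl) (e c) r hr
  have hvol : volume.real (ball (e c) r) = volume.real (ball c r) := by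
    rw [← hball, measureReal_def, measureReal_def, hmp.measure_preimage_emb hme]
  have hset : ∀ F : ℂ → ℝ, (⨍ x in ball (e c) r, F (e.symm x)) = ⨍ x in ball c r, F x := by
    intro F
    rw [setAverage_eq, setAverage_eq, hvol, ← hball, hmp.setIntegral_preimage_emb hme F]
  constructor
  · rw [← hball] at h1
    exact (hmp.integrableOn_comp_preimage hme).1 h1
  · have h6 : (⨍ y in ball (e c) r, (g ∘ e.symm) y) = ⨍ y in ball c r, g y := hset g
    rw [h6] at h2
    have h7 := hset fun x => |g x - ⨍ y in ball c r, g y|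
    rw [← h7]
    exact h2

end

end Run7.h91.Riv
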